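import Pool.Agent.Lib.MP_44a246_ntSR.Defs

set_option autoImplicit false

open NumberField IsDedekindDomain

namespace Pool.Agent.Lib.MP_44a246_ntSR

universe u

open Polynomial in
/-- The embeddings of `K(y)` into a field in which the minimal polynomial splits. -/
theorem closure_aux {K L E : Type u} [Field K] [CharZero K] [Field L] [Algebra K L] [Field E]
    [Algebra K E] [FiniteDimensional K E] (j : ℕ) (hE : Module.finrank K E = j) (y : E)
    (hy : IntermediateField.adjoin K {y} = ⊤)
    (hspl : ((minpoly K y).map (algebraMap K L)).Splits) :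
    Fintype.card ((minpoly K y).rootSet L) = j ∧ ∃ σ : Fin j → (E →ₐ[K] L),
      (minpoly K y).map (algebraMap K L) = ∏ k, (X - C (σ k y)) := by
  classical
  have hint : IsIntegral K y := IsIntegral.of_finite K y
  have hirr : Irreducible (minpoly K y) := minpoly.irreducible hint
  have hsep : (minpoly K y).Separable := hirr.separable
  have hmon : (minpoly K y).Monic := minpoly.monic hint
  have hdeg : (minpoly K y).natDegree = j := by
    rw [← hE]
    exact (Field.primitive_element_iff_minpoly_natDegree_eq K y).1 hy
  have hmon' : ((minpoly K y).map (algebraMap K L)).Monic := hmon.map _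
  have hcard : Fintype.card ((minpoly K y).rootSet L) = j := by
    rw [← hdeg]
    exact card_rootSet_eq_natDegree hsep hspl
  refine ⟨hcard, ?_⟩
  have hgen : ∃ e : IntermediateField.adjoin K {y} ≃ₐ[K] E,
      e.symm y = IntermediateField.AdjoinSimple.gen K y := by
    refine ⟨(IntermediateField.equivOfEq hy).trans IntermediateField.topEquiv, ?_⟩
    rw [AlgEquiv.symm_apply_eq]
    rfl
  obtain ⟨e, he⟩ := hgen
  have hroot : ∀ z : (minpoly K y).rootSet L, ∃ s : E →ₐ[K] L, s y = z := by
    intro z
    have hz : (z : L) ∈ (minpoly K y).aroots L := by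
      rw [mem_aroots]
      exact mem_rootSet.1 z.2
    refine ⟨((IntermediateField.algHomAdjoinIntegralEquiv K (K := L) hint).symm
      ⟨z, hz⟩).comp e.symm.toAlgHom, ?_⟩
    have h1 := IntermediateField.algHomAdjoinIntegralEquiv_symm_apply_gen K (K := L) hint ⟨z, hz⟩
    rw [← he] at h1
    exact h1
  choose s hs using hroot
  have hc2 : Fintype.card (Fin j) = Fintype.card ((minpoly K y).rootSet L) := by
    rw [hcard, Fintype.card_fin]
  let i : Fin j ≃ (minpoly K y).rootSet L := Fintype.equivOfCardEq hc2
  refine ⟨fun k => s (i k), ?_⟩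
  rw [hspl.eq_prod_roots_of_monic hmon']
  have h3 : ((minpoly K y).map (algebraMap K L)).roots.Nodup := nodup_roots hsep.map
  have h4 : ∏ k, (X - C (s (i k) y)) = ∏ z : (minpoly K y).rootSet L, (X - C (z : L)) := by
    rw [← Equiv.prod_comp i]
    exact Finset.prod_congr rfl fun k _ => by rw [hs]
  rw [h4]
  have h5 : ∏ z : (minpoly K y).rootSet L, (X - C (z : L)) =
      ∏ z ∈ ((minpoly K y).map (algebraMap K L)).roots.toFinset, (X - C z) := by
    refine (Finset.prod_subtype (p := fun z : L => z ∈ (minpoly K y).rootSet L) _ (fun z => ?_)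
      fun z => X - C z).symm
    rw [Multiset.mem_toFinset, mem_rootSet]
    exact mem_aroots
  rw [h5, Finset.prod_multiset_map_count]
  refine Finset.prod_congr rfl fun z hz => ?_
  rw [Multiset.count_eq_one_of_mem h3 (Multiset.mem_toFinset.1 hz), pow_one]

open Polynomial in
theorem closure_deg {K : Type u} [Field K] (f : K[X]) (hsep : f.Separable) (j : ℕ)
    (hcard : Fintype.card (f.rootSet f.SplittingField) = j) :
    Module.finrank K f.SplittingField ≤ j.factorial := by
  classical
  rw [← Gal.card_of_separable hsep]
  have : Fact ((f.map (algebraMap K f.SplittingField)).Splits) := ⟨SplittingField.splits f⟩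
  have h2 := Nat.card_le_card_of_injective _ (Gal.galActionHom_injective f f.SplittingField)
  refine h2.trans ?_
  rw [Nat.card_eq_fintype_card, Fintype.card_perm, hcard]

/-- SR0 : a normal closure -/
theorem exists_closure {K : Type u} [Field K] [NumberField K] (j : ℕ) (E : Type u) [Field E]
    [NumberField E] [Algebra K E] (hE : Module.finrank K E = j) (y : E)
    (hy : IntermediateField.adjoin K {y} = ⊤) :
    ∃ (L : Type u) (_ : Field L) (_ : NumberField L) (_ : Algebra K L) (σ : Fin j → (E →ₐ[K] L)),
      Module.finrank K L ≤ j.factorial ∧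
      (minpoly K y).map (algebraMap K L) = ∏ k, (Polynomial.X - Polynomial.C (σ k y)) := by
  have hint : IsIntegral K y := IsIntegral.of_finite K y
  have hsep : (minpoly K y).Separable := (minpoly.irreducible hint).separable
  obtain ⟨hcard, σ, hσ⟩ := closure_aux (L := (minpoly K y).SplittingField) j hE y hy
    (Polynomial.SplittingField.splits _)
  exact ⟨(minpoly K y).SplittingField, inferInstance, NumberField.of_module_finite K _,
    inferInstance, σ, closure_deg _ hsep j hcard, hσ⟩

end Pool.Agent.Lib.MP_44a246_ntSR
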