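import Pool.Agent.Lib.MP_44a246_ntSR.Defs
import Pool.Agent.Lib.MP_44a246_ntSR.SR0
import Pool.Agent.Lib.MP_44a246_ntNF.Tools
import Pool.Agent.Lib.MP_44a246_ntNU.NU6c

set_option autoImplicit false

open NumberField IsDedekindDomain Height
open Pool.Agent.Lib.MP_4d5ce1_nt (fa nv ordv)
open Pool.Agent.Lib.MP_44a246_ntNF
open Pool.Agent.Lib.MP_44a246_ntNU

namespace Pool.Agent.Lib.MP_44a246_ntSR

universe u

/-- Homogenization of a product of monic linear factors. -/
lemma homog_prod {L : Type*} [Field L] {j : ℕ} (a : Fin j → L) (x z : L) :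
    ∑ i : Fin (j + 1), x ^ i.val * z ^ (j - i.val) *
      (∏ k, (Polynomial.X - Polynomial.C (a k))).coeff i.val = ∏ k, (x - z * a k) := by
  have hmon : (∏ k, (Polynomial.X - Polynomial.C (a k))).Monic :=
    Polynomial.monic_prod_of_monic _ _ fun k _ => Polynomial.monic_X_sub_C _
  have hdeg : (∏ k, (Polynomial.X - Polynomial.C (a k))).natDegree = j := by
    rw [Polynomial.natDegree_prod_of_monic _ _ fun k _ => Polynomial.monic_X_sub_C _]
    simp
  set f := ∏ k, (Polynomial.X - Polynomial.C (a k)) with hf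
  have hlead : f.coeff j = 1 := by
    have h1 := hmon.coeff_natDegree
    rwa [hdeg] at h1
  rw [Fin.sum_univ_eq_sum_range (fun i => x ^ i * z ^ (j - i) * f.coeff i) (j + 1)]
  rcases eq_or_ne z 0 with hz | hz
  · subst hz
    rw [Finset.sum_eq_single_of_mem j (Finset.mem_range.2 (Nat.lt_succ_self j))]
    · simp [hlead]
    · intro b hb hbj
      have h1 : j - b ≠ 0 := by
        have := Finset.mem_range.1 hb
        omega
      rw [zero_pow h1]
      simp
  · have h1 : f.eval (x / z) = ∑ i ∈ Finset.range (j + 1), f.coeff i * (x / z) ^ i := by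
      rw [Polynomial.eval_eq_sum_range, hdeg]
    have h2 : f.eval (x / z) = ∏ k, (x / z - a k) := by
      rw [hf, Polynomial.eval_prod]
      simp
    have h3 : ∏ k, (x - z * a k) = z ^ j * f.eval (x / z) := by
      rw [h2]
      have h4 : z ^ j = ∏ _k : Fin j, z := by simp
      rw [h4, ← Finset.prod_mul_distrib]
      refine Finset.prod_congr rfl fun k _ => ?_
      field_simp
    rw [h3, h1, Finset.mul_sum]
    refine Finset.sum_congr rfl fun i hi => ?_
    have hij : i ≤ j := Nat.lt_succ_iff.1 (Finset.mem_range.1 hi)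
    have h5 : z ^ j = z ^ (j - i) * z ^ i := by rw [← pow_add, Nat.sub_add_cancel hij]
    rw [h5, div_pow]
    have h6 : z ^ i ≠ 0 := pow_ne_zero _ hz
    field_simp

/-- The coefficients of a product of linear factors are bounded (ultrametric case). -/
lemma fa_coeff_prod_le {L : Type*} [Field L] [NumberField L] (w : HeightOneSpectrum (𝓞 L))
    {ι : Type*} (s : Finset ι) (a : ι → L) (i : ℕ) :
    fa w ((∏ k ∈ s, (Polynomial.X - Polynomial.C (a k))).coeff i) ≤
      ∏ k ∈ s, max 1 (fa w (a k)) := by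
  classical
  induction s using Finset.induction_on generalizing i with
  | empty =>
    rw [Finset.prod_empty, Finset.prod_empty, Polynomial.coeff_one]
    split_ifs
    · simp
    · simp
  | insert b s hb ih =>
    rw [Finset.prod_insert hb, Finset.prod_insert hb, sub_mul, Polynomial.coeff_sub,
      Polynomial.coeff_C_mul]
    have hnn : 0 ≤ ∏ k ∈ s, max 1 (fa w (a k)) :=
      Finset.prod_nonneg fun k _ => le_trans zero_le_one (le_max_left _ _)
    refine (Pool.Agent.Lib.MP_4d5ce1_nt.fa_sub_le w _ _).trans (max_le ?_ ?_)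
    · have h1 : fa w ((Polynomial.X * ∏ k ∈ s, (Polynomial.X - Polynomial.C (a k))).coeff i) ≤
          ∏ k ∈ s, max 1 (fa w (a k)) := by
        rcases i with _ | i
        · rw [Polynomial.mul_coeff_zero, Polynomial.coeff_X_zero, zero_mul,
            Pool.Agent.Lib.MP_4d5ce1_nt.fa_zero]
          exact hnn
        · rw [Polynomial.coeff_X_mul]
          exact ih i
      exact h1.trans (le_mul_of_one_le_left hnn (le_max_left _ _))
    · rw [Pool.Agent.Lib.MP_4d5ce1_nt.fa_mul]
      exact mul_le_mul (le_max_right _ _) (ih i) (Pool.Agent.Lib.MP_4d5ce1_nt.fa_nonneg w _)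
        (le_trans zero_le_one (le_max_left _ _))

/-- There is a prime above every prime. -/
lemma exists_above {K : Type*} {L : Type*} [Field K] [NumberField K] [Field L] [NumberField L]
    [Algebra K L] (v : HeightOneSpectrum (𝓞 K)) :
    ∃ w : HeightOneSpectrum (𝓞 L), w.asIdeal.comap (algebraMap (𝓞 K) (𝓞 L)) = v.asIdeal := by
  have hmax : v.asIdeal.IsMaximal := v.isMaximal
  obtain ⟨Q, hQ, hQv⟩ := Ideal.exists_maximal_ideal_liesOver_of_isIntegral (S := 𝓞 L) v.asIdeal
  have hc : Q.comap (algebraMap (𝓞 K) (𝓞 L)) = v.asIdeal := hQv.over.symm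
  refine ⟨⟨Q, hQ.isPrime, ?_⟩, hc⟩
  rintro rfl
  apply v.ne_bot
  rw [← hc]
  rw [eq_bot_iff]
  intro x hx
  rw [Ideal.mem_comap, Ideal.mem_bot] at hx
  rw [Ideal.mem_bot]
  exact (FaithfulSMul.algebraMap_injective (𝓞 K) (𝓞 L)) (by rw [hx, map_zero])

/-- Restriction of a prime along an embedding. -/
lemma exists_restrict {K : Type*} {E : Type*} {L : Type*} [Field K] [NumberField K] [Field E]
    [NumberField E] [Field L] [NumberField L] [Algebra K E] [Algebra K L] (σ : E →ₐ[K] L)
    (v : HeightOneSpectrum (𝓞 K)) (w₀ : HeightOneSpectrum (𝓞 L))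
    (h₀ : w₀.asIdeal.comap (algebraMap (𝓞 K) (𝓞 L)) = v.asIdeal) :
    ∃ w : HeightOneSpectrum (𝓞 E),
      w.asIdeal.comap (algebraMap (𝓞 K) (𝓞 E)) = v.asIdeal ∧
      ∃ m : ℕ, 1 ≤ m ∧ ∀ z : E, fa w₀ (σ z) = fa w z ^ m := by
  let _ : Algebra E L := σ.toRingHom.toAlgebra
  have : IsScalarTower K E L := IsScalarTower.of_algebraMap_eq fun x => (σ.commutes x).symm
  obtain ⟨w, hw⟩ := exists_below (K := E) (E := L) w₀
  obtain ⟨m, hm, _, hfa⟩ := fa_up_lt_iff (K := E) (E := L) hw
  refine ⟨w, ?_, m, hm, fun z => hfa z⟩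
  rw [← hw, Ideal.comap_comap, ← h₀]
  congr 1
  ext x
  change algebraMap E L (algebraMap K E (x : K)) = algebraMap K L (x : K)
  rw [← IsScalarTower.algebraMap_apply]

/-- SR5 : reduction of the minimal polynomial -/
theorem local_norm {K : Type u} {E : Type u} [Field K] [NumberField K] [Field E] [NumberField E]
    [Algebra K E] {j : ℕ} (hE : Module.finrank K E = j) (v : HeightOneSpectrum (𝓞 K)) (y : E)
    (hy : IntermediateField.adjoin K {y} = ⊤) (l : Fin 2 → K)
    (h : ∀ w : HeightOneSpectrum (𝓞 E),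
      w.asIdeal.comap (algebraMap (𝓞 K) (𝓞 E)) = v.asIdeal →
        1 ≤ fa w (algebraMap K E (l 0) + algebraMap K E (l 1) * y) ∧
        fa w y ≤ fa w (algebraMap K E (l 0) + algebraMap K E (l 1) * y))
    (i : Fin (j + 1)) : fa v (mc K j y i) ≤ fa v (∑ i, vdm j l i * mc K j y i) := by
  obtain ⟨L, _, _, _, σ, -, hf⟩ := exists_closure j E hE y hy
  obtain ⟨w₀, hw₀⟩ := exists_above (L := L) v
  obtain ⟨m, hm, _, hdown⟩ := fa_up_lt_iff (K := K) (E := L) hw₀
  have hm0 : m ≠ 0 := by omega
  have hcoeff : ∀ i : ℕ, algebraMap K L ((minpoly K y).coeff i) =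
      (∏ k, (Polynomial.X - Polynomial.C (σ k y))).coeff i := by
    intro i
    rw [← hf, Polynomial.coeff_map]
  have hsum : algebraMap K L (∑ i, vdm j l i * mc K j y i) =
      ∏ k, (algebraMap K L (-l 0) - algebraMap K L (l 1) * σ k y) := by
    rw [← homog_prod, map_sum]
    refine Finset.sum_congr rfl fun i _ => ?_
    simp only [vdm, mc]
    rw [map_mul, map_mul, map_pow, map_pow, hcoeff]
  have hfactor : ∀ k, max 1 (fa w₀ (σ k y)) ≤
      fa w₀ (algebraMap K L (-l 0) - algebraMap K L (l 1) * σ k y) := by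
    intro k
    obtain ⟨w, hw, m', _, hfa⟩ := exists_restrict (σ k) v w₀ hw₀
    obtain ⟨h1, h2⟩ := h w hw
    have h3 : fa w₀ (algebraMap K L (-l 0) - algebraMap K L (l 1) * σ k y) =
        fa w (algebraMap K E (l 0) + algebraMap K E (l 1) * y) ^ m' := by
      rw [← hfa, map_add, map_mul, AlgHom.commutes, AlgHom.commutes, map_neg,
        ← Pool.Agent.Lib.MP_4d5ce1_nt.fa_neg]
      congr 1
      ring
    rw [h3]
    refine max_le (one_le_pow₀ h1) ?_
    rw [hfa]
    exact pow_le_pow_left₀ (Pool.Agent.Lib.MP_4d5ce1_nt.fa_nonneg w _) h2 m'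
  have hfaprod : ∀ a : Fin j → L, fa w₀ (∏ k, a k) = ∏ k, fa w₀ (a k) := by
    intro a
    exact map_prod (FinitePlace.mk w₀) a Finset.univ
  have key : fa w₀ (algebraMap K L (mc K j y i)) ≤
      fa w₀ (algebraMap K L (∑ i, vdm j l i * mc K j y i)) := by
    rw [hsum, hfaprod]
    simp only [mc]
    rw [hcoeff]
    refine (fa_coeff_prod_le w₀ Finset.univ (fun k => σ k y) i.val).trans ?_
    exact Finset.prod_le_prod (fun k _ => le_trans zero_le_one (le_max_left _ _))
      fun k _ => hfactor k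
  rw [hdown, hdown] at key
  exact (pow_le_pow_iff_left₀ (Pool.Agent.Lib.MP_4d5ce1_nt.fa_nonneg v _)
    (Pool.Agent.Lib.MP_4d5ce1_nt.fa_nonneg v _) hm0).1 key

end Pool.Agent.Lib.MP_44a246_ntSR
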