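import Pool.Agent.Lib.MP_44a246_ntNF.Defs
import Pool.Agent.Lib.MP_44a246_ntNU.Defs

set_option autoImplicit false

open NumberField IsDedekindDomain

namespace Pool.Agent.Lib.MP_44a246_ntSR

universe u

/-- The hyperplane of the polynomials of degree `j` which vanish at the root `- l 0 / l 1` of
`l 0 + l 1 * T`. -/
def vdm {K : Type*} [Field K] (j : ℕ) (l : Fin 2 → K) : Fin (j + 1) → K :=
  fun i => (-l 0) ^ i.val * l 1 ^ (j - i.val)

/-- The coefficients of the minimal polynomial. -/
noncomputable def mc (K : Type*) {E : Type*} [Field K] [Field E] [Algebra K E] (j : ℕ) (y : E) :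
    Fin (j + 1) → K := fun i => (minpoly K y).coeff i.val

/-- `s = (E, [1 : y])` with `E = K(y)`. -/
def Prim {K : Type u} [Field K] (s : Σ F : IntermediateField K (AlgebraicClosure K),
    Projectivization F (Fin 2 → F)) : Prop :=
  s.2.rep 0 ≠ 0 ∧ IntermediateField.adjoin K {s.2.rep 1 / s.2.rep 0} = ⊤

end Pool.Agent.Lib.MP_44a246_ntSR
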