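import Mathlib
import Pool.Agent.Lib.MP_44a246_ntSR.Defs

/-!
# Heights in extensions of number fields
-/

set_option autoImplicit false

open NumberField IsDedekindDomain Height

namespace Pool.Agent.Lib.MP_44a246_ntSR

universe u

/-- The number of extensions of a complex embedding. -/
private lemma card_ext {K L : Type*} [Field K] [NumberField K] [Field L] [NumberField L]
    [Algebra K L] (ψ : K →+* ℂ) [DecidableEq (K →+* ℂ)] :
    (Finset.univ.filter (fun φ : L →+* ℂ => φ.comp (algebraMap K L) = ψ)).card =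
      Module.finrank K L := by
  classical
  have hfin : Module.Finite K L := Module.Finite.of_restrictScalars_finite ℚ K L
  let : Algebra K ℂ := ψ.toAlgebra
  have h1 : Fintype.card (L →ₐ[K] ℂ) = Module.finrank K L := AlgHom.card K L ℂ
  rw [← h1, ← Fintype.card_subtype]
  refine Fintype.card_congr
    ⟨fun φ => { φ.1 with commutes' := fun r => ?_ }, fun f => ⟨f.toRingHom, ?_⟩, ?_, ?_⟩
  · exact RingHom.congr_fun φ.2 r
  · ext r
    exact f.commutes r
  · intro φ
    rfl
  · intro f
    rfl

/-- The archimedean part. -/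
private lemma prod_inf {K L : Type*} [Field K] [NumberField K] [Field L] [NumberField L]
    [Algebra K L] (h : InfinitePlace K → ℝ) :
    ∏ w : InfinitePlace L, h (w.comap (algebraMap K L)) ^ w.mult =
      (∏ v : InfinitePlace K, h v ^ v.mult) ^ Module.finrank K L := by
  classical
  have h1 : ∏ w : InfinitePlace L, h (w.comap (algebraMap K L)) ^ w.mult =
      ∏ φ : L →+* ℂ, h (InfinitePlace.mk (φ.comp (algebraMap K L))) := by
    rw [← Finset.prod_fiberwise Finset.univ (fun φ : L →+* ℂ => InfinitePlace.mk φ)]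
    refine Finset.prod_congr rfl fun w _ => ?_
    rw [← InfinitePlace.card_filter_mk_eq, ← Finset.prod_const]
    refine Finset.prod_congr rfl fun φ hφ => ?_
    rw [← (Finset.mem_filter.1 hφ).2, InfinitePlace.comap_mk]
  have h2 : ∏ v : InfinitePlace K, h v ^ v.mult = ∏ ψ : K →+* ℂ, h (InfinitePlace.mk ψ) := by
    rw [← Finset.prod_fiberwise Finset.univ (fun ψ : K →+* ℂ => InfinitePlace.mk ψ)]
    refine Finset.prod_congr rfl fun v _ => ?_
    rw [← InfinitePlace.card_filter_mk_eq, ← Finset.prod_const]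
    refine Finset.prod_congr rfl fun ψ hψ => ?_
    rw [(Finset.mem_filter.1 hψ).2]
  rw [h1, h2, ← Finset.prod_pow,
    ← Finset.prod_fiberwise Finset.univ (fun φ : L →+* ℂ => φ.comp (algebraMap K L))]
  refine Finset.prod_congr rfl fun ψ _ => ?_
  rw [← card_ext (L := L) ψ, ← Finset.prod_const]
  refine Finset.prod_congr rfl fun φ hφ => ?_
  rw [(Finset.mem_filter.1 hφ).2]

/-- The case of integral coordinates. -/
private lemma mulHeight_ext_int {K L : Type*} [Field K] [NumberField K] [Field L] [NumberField L]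
    [Algebra K L] {ι : Type*} [Finite ι] (x : ι → 𝓞 K) :
    mulHeight (fun i => algebraMap K L (x i : K)) =
      mulHeight (fun i => (x i : K)) ^ Module.finrank K L := by
  by_cases hx : x = 0
  · subst hx
    have e1 : (fun i : ι => algebraMap K L (((0 : ι → 𝓞 K) i : 𝓞 K) : K)) = 0 := by
      funext i
      simp
    have e2 : (fun i : ι => (((0 : ι → 𝓞 K) i : 𝓞 K) : K)) = 0 := by
      funext i
      simp
    rw [e1, e2, mulHeight_zero, mulHeight_zero, one_pow]
  set y : ι → 𝓞 L := fun i => algebraMap (𝓞 K) (𝓞 L) (x i) with hy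
  have hyx : ∀ i, ((y i : 𝓞 L) : L) = algebraMap K L (x i : K) := fun i => by
    change algebraMap (𝓞 L) L (algebraMap (𝓞 K) (𝓞 L) (x i)) =
      algebraMap K L (algebraMap (𝓞 K) K (x i))
    rw [← IsScalarTower.algebraMap_apply (𝓞 K) (𝓞 L) L,
      ← IsScalarTower.algebraMap_apply (𝓞 K) K L]
  obtain ⟨i₀, hi₀⟩ := Function.ne_iff.1 hx
  have hi₀' : ((x i₀ : 𝓞 K) : K) ≠ 0 := by
    simpa using hi₀
  have hyi : ((y i₀ : 𝓞 L) : L) ≠ 0 := by
    rw [hyx]
    simpa using hi₀
  have hy0 : y ≠ 0 := by
    intro h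
    apply hyi
    rw [h]
    simp
  have hxK : (fun i => (x i : K)) ≠ 0 := fun h => hi₀' (congrFun h i₀)
  have hyL : (fun i => algebraMap K L (x i : K)) ≠ 0 := by
    intro h
    apply hyi
    rw [hyx]
    exact congrFun h i₀
  have hfin : (Ideal.span (Set.range y)).absNorm =
      (Ideal.span (Set.range x)).absNorm ^ Module.finrank K L := by
    have e1 : Ideal.span (Set.range y) = (Ideal.span (Set.range x)).map
        (algebraMap (𝓞 K) (𝓞 L)) := by
      rw [Ideal.map_span]
      congr 1
      rw [← Set.range_comp]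
      rfl
    rw [e1, Ideal.absNorm_algebraMap]
    congr 1
    exact (IsFractionRing.finrank_eq (𝓞 K) K (𝓞 L) L).symm
  have hK := absNorm_mul_finprod_finitePlace_eq_one (K := K) hx
  have hL := absNorm_mul_finprod_finitePlace_eq_one (K := L) hy0
  have hposK : (0 : ℝ) < ((Ideal.span (Set.range x)).absNorm : ℝ) := by
    rcases (Nat.cast_nonneg (α := ℝ) (Ideal.span (Set.range x)).absNorm).eq_or_lt with h | h
    · rw [← h, zero_mul] at hK
      exact absurd hK zero_ne_one
    · exact h
  have hKL : ∏ᶠ v : FinitePlace L, ⨆ i, v (y i : L) =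
      (∏ᶠ v : FinitePlace K, ⨆ i, v (x i : K)) ^ Module.finrank K L := by
    have a1 := eq_inv_of_mul_eq_one_right hK
    have a2 := eq_inv_of_mul_eq_one_right hL
    rw [a1, a2, hfin]
    push_cast
    rw [inv_pow]
  rw [NumberField.mulHeight_eq hxK, NumberField.mulHeight_eq hyL, mul_pow, ← hKL,
    ← prod_inf (L := L) (fun v : InfinitePlace K => ⨆ i, v (x i : K))]
  congr 1

/-- SR1 : heights in extensions -/
theorem mulHeight_ext {K L : Type*} [Field K] [NumberField K] [Field L] [NumberField L]
    [Algebra K L] {ι : Type*} [Finite ι] (x : ι → K) :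
    mulHeight (fun i => algebraMap K L (x i)) = mulHeight x ^ Module.finrank K L := by
  obtain ⟨b, hb⟩ := IsLocalization.exist_integer_multiples_of_finite (nonZeroDivisors (𝓞 K)) x
  choose a ha using hb
  have hb0 : ((b : 𝓞 K) : K) ≠ 0 := by
    simp
  have hbE : algebraMap K L ((b : 𝓞 K) : K) ≠ 0 := by
    rw [Ne, map_eq_zero]
    exact hb0
  have h1 : (fun i => (a i : K)) = ((b : 𝓞 K) : K) • x := by
    funext i
    rw [Pi.smul_apply, smul_eq_mul]
    have h2 := ha i
    rw [Algebra.smul_def] at h2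
    exact h2
  have h2 : (fun i => algebraMap K L (a i : K)) =
      algebraMap K L ((b : 𝓞 K) : K) • (fun i => algebraMap K L (x i)) := by
    funext i
    rw [Pi.smul_apply, smul_eq_mul, ← map_mul]
    have h3 := congrFun h1 i
    rw [Pi.smul_apply, smul_eq_mul] at h3
    rw [← h3]
  rw [← mulHeight_smul_eq_mulHeight _ hbE, ← h2, mulHeight_ext_int, h1,
    mulHeight_smul_eq_mulHeight _ hb0]

end Pool.Agent.Lib.MP_44a246_ntSR
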