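import Pool.Agent.Lib.MP_44a246_ntSR.Defs
import Mathlib.NumberTheory.Height.NumberField
import Mathlib.Analysis.Polynomial.MahlerMeasure
import Mathlib.RingTheory.Polynomial.GaussNorm

set_option autoImplicit false

open NumberField IsDedekindDomain Height

namespace Pool.Agent.Lib.MP_44a246_ntSR

universe u

private lemma monic_P {L : Type*} [Field L] {j : ℕ} (y : Fin j → L) :
    (∏ k, (Polynomial.X - Polynomial.C (y k))).Monic :=
  Polynomial.monic_prod_of_monic _ _ fun k _ => Polynomial.monic_X_sub_C (y k)

private lemma natDegree_P {L : Type*} [Field L] {j : ℕ} (y : Fin j → L) :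
    (∏ k, (Polynomial.X - Polynomial.C (y k))).natDegree = j := by
  rw [Polynomial.natDegree_prod_of_monic _ _ fun k _ => Polynomial.monic_X_sub_C (y k)]
  simp

private lemma coeffs_ne {L : Type*} [Field L] {j : ℕ} (y : Fin j → L) :
    (fun i : Fin (j + 1) =>
      (∏ k, (Polynomial.X - Polynomial.C (y k))).coeff i.val) ≠ 0 := by
  intro h
  have h1 := congrFun h (Fin.last j)
  have h2 := (monic_P y).coeff_natDegree
  rw [natDegree_P] at h2
  simp only [Fin.val_last, Pi.zero_apply] at h1
  rw [h1] at h2
  exact zero_ne_one h2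

/-- the product of the local maxima at an infinite place -/
private lemma inf_bound {L : Type*} [Field L] [NumberField L] {j : ℕ} (v : InfinitePlace L)
    (y : Fin j → L) :
    ∏ k, max (v (y k)) 1 ≤ (j + 1 : ℝ) * ⨆ i : Fin (j + 1),
      v ((∏ k, (Polynomial.X - Polynomial.C (y k))).coeff i.val) := by
  set P := ∏ k, (Polynomial.X - Polynomial.C (y k)) with hP
  have h1 : ∏ k, max (v (y k)) 1 = (P.map v.embedding).mahlerMeasure := by
    have hmul : ∀ s : Finset (Fin j),
        (∏ k ∈ s, (Polynomial.X - Polynomial.C (v.embedding (y k)))).mahlerMeasure =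
          ∏ k ∈ s, max (v (y k)) 1 := by
      intro s
      classical
      induction s using Finset.induction_on with
      | empty => simp
      | insert a s ha ih =>
        rw [Finset.prod_insert ha, Finset.prod_insert ha, Polynomial.mahlerMeasure_mul, ih,
          Polynomial.mahlerMeasure_X_sub_C, InfinitePlace.norm_embedding_eq, max_comm]
    rw [← hmul, hP, Polynomial.map_prod]
    congr 1
    apply Finset.prod_congr rfl
    intro k _
    rw [Polynomial.map_sub, Polynomial.map_X, Polynomial.map_C]
  rw [h1]
  refine (Polynomial.mahlerMeasure_le_sum_norm_coeff _).trans ?_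
  have hsup : ∀ i : Fin (j + 1), v (P.coeff i.val) ≤ ⨆ i : Fin (j + 1), v (P.coeff i.val) :=
    fun i => le_ciSup (f := fun i : Fin (j + 1) => v (P.coeff i.val))
      (Set.finite_range _).bddAbove i
  rw [Polynomial.sum_over_range' _ (by simp) (j + 1)
    (by rw [Polynomial.natDegree_map, hP, natDegree_P]; exact Nat.lt_succ_self j)]
  calc ∑ a ∈ Finset.range (j + 1), ‖(P.map v.embedding).coeff a‖
      ≤ ∑ a ∈ Finset.range (j + 1), ⨆ i : Fin (j + 1), v (P.coeff i.val) := by
        apply Finset.sum_le_sum
        intro a ha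
        rw [Polynomial.coeff_map, InfinitePlace.norm_embedding_eq]
        exact hsup ⟨a, Finset.mem_range.1 ha⟩
    _ = (j + 1 : ℝ) * ⨆ i : Fin (j + 1), v (P.coeff i.val) := by
        rw [Finset.sum_const, Finset.card_range, nsmul_eq_mul]
        push_cast
        ring

private lemma gauss_lin {L : Type*} [Field L] (v : AbsoluteValue L ℝ) (y : L) :
    (Polynomial.X - Polynomial.C y).gaussNorm v 1 = max (v y) 1 := by
  apply le_antisymm
  · obtain ⟨i, hi⟩ := (Polynomial.X - Polynomial.C y).exists_eq_gaussNorm v 1
    rw [hi, one_pow, mul_one]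
    rcases Nat.lt_or_ge 1 i with h | h
    · have : (Polynomial.X - Polynomial.C y).coeff i = 0 := by
        rw [Polynomial.coeff_sub, Polynomial.coeff_X, Polynomial.coeff_C]
        rw [if_neg (by omega), if_neg (by omega), sub_zero]
      rw [this, map_zero]
      exact le_max_of_le_right zero_le_one
    · interval_cases i
      · simp
      · simp [Polynomial.coeff_X]
  · apply max_le
    · have := (Polynomial.X - Polynomial.C y).le_gaussNorm v (c := 1) zero_le_one 0
      simpa using this
    · have := (Polynomial.X - Polynomial.C y).le_gaussNorm v (c := 1) zero_le_one 1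
      simpa [Polynomial.coeff_X, Polynomial.coeff_C] using this

/-- Gauss lemma at a finite place -/
private lemma fin_bound {L : Type*} [Field L] [NumberField L] {j : ℕ} (v : FinitePlace L)
    (y : Fin j → L) :
    ∏ k, max (v (y k)) 1 ≤ ⨆ i : Fin (j + 1),
      v ((∏ k, (Polynomial.X - Polynomial.C (y k))).coeff i.val) := by
  have hna : IsNonarchimedean v.val := fun a b => FinitePlace.add_le v a b
  have h1 : ∀ s : Finset (Fin j), (∏ k ∈ s, (Polynomial.X - Polynomial.C (y k))).gaussNorm
      v.val 1 = ∏ k ∈ s, max (v (y k)) 1 := by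
    intro s
    classical
    induction s using Finset.induction_on with
    | empty =>
      rw [Finset.prod_empty, Finset.prod_empty, ← Polynomial.C_1, Polynomial.gaussNorm_C, map_one]
    | insert a s ha ih =>
      rw [Finset.prod_insert ha, Finset.prod_insert ha, Polynomial.gaussNorm_mul hna one_pos, ih,
        gauss_lin]
      rfl
  rw [← h1 Finset.univ]
  obtain ⟨i, hi⟩ := (∏ k, (Polynomial.X - Polynomial.C (y k))).exists_eq_gaussNorm v.val 1
  rw [hi, one_pow, mul_one]
  rcases Nat.lt_or_ge j i with h | h
  · rw [Polynomial.coeff_eq_zero_of_natDegree_lt (by rw [natDegree_P]; exact h), map_zero]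
    exact Real.iSup_nonneg fun i => apply_nonneg v _
  · exact le_ciSup (f := fun i : Fin (j + 1) =>
      v ((∏ k, (Polynomial.X - Polynomial.C (y k))).coeff i.val))
      (Set.finite_range _).bddAbove ⟨i, Nat.lt_succ_of_le h⟩

private lemma supp_max {L : Type*} [Field L] [NumberField L] (x : L) :
    (fun v : FinitePlace L => max (v x) 1).HasFiniteMulSupport := by
  rcases eq_or_ne x 0 with rfl | hx
  · have : (fun v : FinitePlace L => max (v (0 : L)) 1) = fun _ => 1 := by
      funext v
      rw [map_zero]
      exact max_eq_right zero_le_one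
    rw [this]
    exact Function.hasFiniteMulSupport_one
  · have h := FinitePlace.hasFiniteMulSupport hx
    refine Set.Finite.subset h ?_
    intro v hv
    simp only [Function.mem_mulSupport] at hv ⊢
    intro h1
    apply hv
    rw [h1, max_self]

private lemma supp_sup {L : Type*} [Field L] [NumberField L] {ι : Type*} [Finite ι] {x : ι → L}
    (hx : x ≠ 0) : (fun v : FinitePlace L => ⨆ i, v (x i)).HasFiniteMulSupport := by
  obtain ⟨i0, hi0⟩ := Function.ne_iff.mp hx
  have hfin : {v : FinitePlace L | ∃ i, x i ≠ 0 ∧ v (x i) ≠ 1}.Finite := by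
    have : {v : FinitePlace L | ∃ i, x i ≠ 0 ∧ v (x i) ≠ 1} =
        ⋃ i, {v : FinitePlace L | x i ≠ 0 ∧ v (x i) ≠ 1} := by
      ext v
      simp
    rw [this]
    apply Set.finite_iUnion
    intro i
    by_cases hi : x i = 0
    · simp [hi]
    · refine Set.Finite.subset (FinitePlace.hasFiniteMulSupport hi) ?_
      intro v hv
      exact hv.2
  refine Set.Finite.subset hfin ?_
  intro v hv
  simp only [Function.mem_mulSupport] at hv
  by_contra hcon
  simp only [Set.mem_ofPred_eq, not_exists, not_and, not_not] at hcon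
  apply hv
  have : Nonempty ι := ⟨i0⟩
  apply le_antisymm
  · apply ciSup_le
    intro i
    by_cases hi : x i = 0
    · rw [hi, map_zero]
      exact zero_le_one
    · exact (hcon i hi).le
  · rw [← hcon i0 hi0]
    exact le_ciSup (f := fun i => v (x i)) (Set.finite_range _).bddAbove i0

/-- SR3b : the second inequality of the height of a product of linear factors -/
theorem height_prod_lo (j d : ℕ) : ∃ C : ℝ, 1 ≤ C ∧ ∀ (L : Type u) [Field L] [NumberField L],
    Module.finrank ℚ L ≤ d → ∀ y : Fin j → L,
      ∏ k, mulHeight ![1, y k] ≤ C * mulHeight (fun i : Fin (j + 1) =>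
        (∏ k, (Polynomial.X - Polynomial.C (y k))).coeff i.val) := by
  have h1j : (1 : ℝ) ≤ (j + 1 : ℝ) := by
    have : (0 : ℝ) ≤ j := Nat.cast_nonneg j
    linarith
  refine ⟨(j + 1 : ℝ) ^ d, one_le_pow₀ h1j, ?_⟩
  intro L _ _ hL y
  have e1 : ∀ k, mulHeight ![1, y k] =
      (∏ v : InfinitePlace L, max (v (y k)) 1 ^ v.mult) *
        ∏ᶠ v : FinitePlace L, max (v (y k)) 1 := by
    intro k
    rw [mulHeight_swap, ← mulHeight₁_eq_mulHeight, NumberField.mulHeight₁_eq]
  rw [Finset.prod_congr rfl fun k _ => e1 k, Finset.prod_mul_distrib,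
    NumberField.mulHeight_eq (coeffs_ne y)]
  set x : Fin (j + 1) → L := fun i =>
    (∏ k, (Polynomial.X - Polynomial.C (y k))).coeff i.val with hx
  have hx0 : x ≠ 0 := coeffs_ne y
  have hI : ∏ k, ∏ v : InfinitePlace L, max (v (y k)) 1 ^ v.mult ≤
      (j + 1 : ℝ) ^ d * ∏ v : InfinitePlace L, (⨆ i, v (x i)) ^ v.mult := by
    rw [Finset.prod_comm]
    calc ∏ v : InfinitePlace L, ∏ k, max (v (y k)) 1 ^ v.mult
        ≤ ∏ v : InfinitePlace L, ((j + 1 : ℝ) ^ v.mult * (⨆ i, v (x i)) ^ v.mult) := by
          apply Finset.prod_le_prod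
          · intro v _
            exact Finset.prod_nonneg fun k _ =>
              pow_nonneg (zero_le_one.trans (le_max_right _ _)) _
          · intro v _
            rw [Finset.prod_pow, ← mul_pow]
            exact pow_le_pow_left₀ (Finset.prod_nonneg fun k _ =>
              zero_le_one.trans (le_max_right _ _)) (inf_bound v y) _
      _ = (j + 1 : ℝ) ^ (Module.finrank ℚ L) *
            ∏ v : InfinitePlace L, (⨆ i, v (x i)) ^ v.mult := by
          rw [Finset.prod_mul_distrib, Finset.prod_pow_eq_pow_sum, InfinitePlace.sum_mult_eq]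
      _ ≤ _ := by
          apply mul_le_mul_of_nonneg_right
          · exact pow_le_pow_right₀ h1j hL
          · exact Finset.prod_nonneg fun v _ =>
              pow_nonneg (Real.iSup_nonneg fun i => apply_nonneg v _) _
  have hF : ∏ k, ∏ᶠ v : FinitePlace L, max (v (y k)) 1 ≤
      ∏ᶠ v : FinitePlace L, ⨆ i, v (x i) := by
    rw [← finprod_prod_comm _ _ fun k _ => supp_max (y k)]
    apply finprod_le_finprod
    · have : (fun v : FinitePlace L => ∏ k, max (v (y k)) 1) =
          ∏ k, fun v : FinitePlace L => max (v (y k)) 1 := by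
        funext v
        rw [Finset.prod_apply]
      rw [this]
      refine Set.Finite.subset
        (Set.finite_iUnion fun k => supp_max (L := L) (y k)) ?_
      intro v hv
      simp only [Function.mem_mulSupport, Finset.prod_apply] at hv
      simp only [Set.mem_iUnion, Function.mem_mulSupport]
      by_contra hcon
      push Not at hcon
      exact hv (Finset.prod_eq_one fun k _ => hcon k)
    · intro v
      exact Finset.prod_nonneg fun k _ => zero_le_one.trans (le_max_right _ _)
    · exact supp_sup hx0
    · intro v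
      exact fin_bound v y
  calc (∏ k, ∏ v : InfinitePlace L, max (v (y k)) 1 ^ v.mult) *
        ∏ k, ∏ᶠ v : FinitePlace L, max (v (y k)) 1
      ≤ ((j + 1 : ℝ) ^ d * ∏ v : InfinitePlace L, (⨆ i, v (x i)) ^ v.mult) *
          ∏ᶠ v : FinitePlace L, ⨆ i, v (x i) := by
        apply mul_le_mul hI hF
        · exact Finset.prod_nonneg fun k _ =>
            finprod_nonneg fun v => zero_le_one.trans (le_max_right _ _)
        · apply mul_nonneg (pow_nonneg (zero_le_one.trans h1j) _)
          exact Finset.prod_nonneg fun v _ =>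
              pow_nonneg (Real.iSup_nonneg fun i => apply_nonneg v _) _
    _ = _ := by rw [mul_assoc]

end Pool.Agent.Lib.MP_44a246_ntSR
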