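import Pool.Agent.Lib.MP_44a246_ntSR.SR3a
import Pool.Agent.Lib.MP_44a246_ntSR.SR3b

set_option autoImplicit false

open NumberField IsDedekindDomain Height

namespace Pool.Agent.Lib.MP_44a246_ntSR

universe u

/-- SR3 : height of the coefficients of a product of linear factors -/
theorem height_prod (j d : ℕ) : ∃ C : ℝ, 1 ≤ C ∧ ∀ (L : Type u) [Field L] [NumberField L],
    Module.finrank ℚ L ≤ d → ∀ y : Fin j → L,
      mulHeight (fun i : Fin (j + 1) =>
        (∏ k, (Polynomial.X - Polynomial.C (y k))).coeff i.val) ≤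
          C * ∏ k, mulHeight ![1, y k] ∧
      ∏ k, mulHeight ![1, y k] ≤ C * mulHeight (fun i : Fin (j + 1) =>
        (∏ k, (Polynomial.X - Polynomial.C (y k))).coeff i.val) := by
  obtain ⟨C1, h1, H1⟩ := height_prod_up.{u} j d
  obtain ⟨C2, h2, H2⟩ := height_prod_lo.{u} j d
  refine ⟨max C1 C2, le_max_of_le_left h1, ?_⟩
  intro L _ _ hL y
  refine ⟨(H1 L hL y).trans ?_, (H2 L hL y).trans ?_⟩
  · exact mul_le_mul_of_nonneg_right (le_max_left _ _)
      (Finset.prod_nonneg fun k _ => (mulHeight_pos _).le)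
  · exact mul_le_mul_of_nonneg_right (le_max_right _ _) (mulHeight_pos _).le

end Pool.Agent.Lib.MP_44a246_ntSR
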