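import Pool.Agent.Lib.MP_44a246_ntSR.Defs
import Mathlib.LinearAlgebra.Vandermonde

set_option autoImplicit false

open NumberField IsDedekindDomain

namespace Pool.Agent.Lib.MP_44a246_ntSR

universe u

/-- SR6 : general position -/
theorem linInd_vdm {K : Type*} [Field K] {q j : ℕ} (L : Fin q → Fin 2 → K)
    (hL : ∀ a b, a ≠ b → L a 0 * L b 1 - L a 1 * L b 0 ≠ 0) (J : Fin (j + 1) → Fin q)
    (hJ : Function.Injective J) : LinearIndependent K (fun i => vdm j (L (J i))) := by
  have hM : (fun i => vdm j (L (J i))) =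
      Matrix.projVandermonde (fun i => -L (J i) 0) (fun i => L (J i) 1) := by
    funext i k
    rw [Matrix.projVandermonde_apply]
    simp only [vdm]
    congr 2
    rw [Fin.val_rev]
    omega
  rw [hM]
  refine Matrix.linearIndependent_rows_of_det_ne_zero ?_
  rw [Matrix.det_projVandermonde]
  refine Finset.prod_ne_zero_iff.2 fun a _ => Finset.prod_ne_zero_iff.2 fun b hb => ?_
  have hab : a ≠ b := (Finset.mem_Ioi.1 hb).ne
  have h := hL (J a) (J b) (fun h => hab (hJ h))
  intro h0
  apply h
  linear_combination h0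

end Pool.Agent.Lib.MP_44a246_ntSR
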