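import Pool.Agent.Lib.MP_44a246_ntSR.Defs
import Pool.Agent.Lib.MP_44a246_ntSR.SR5
import Pool.Agent.Lib.MP_44a246_ntNF.NF6
import Pool.Agent.Lib.MP_44a246_ntNU.NU6
import Pool.Agent.Lib.MP_44a246_nt.HP.Defs

set_option autoImplicit false

open NumberField IsDedekindDomain Height
open Pool.Agent.Lib.MP_4d5ce1_nt (fa nv ordv)
open Pool.Agent.Lib.MP_44a246_ntNF
open Pool.Agent.Lib.MP_44a246_ntNU

namespace Pool.Agent.Lib.MP_44a246_ntSR

universe u

/-- The statement of SR5, used as a hypothesis. -/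
def LocalNorm (K : Type u) [Field K] [NumberField K] : Prop :=
  ∀ (E : Type u) [Field E] [NumberField E] [Algebra K E] (j : ℕ), Module.finrank K E = j →
    ∀ (v : HeightOneSpectrum (𝓞 K)) (y : E), IntermediateField.adjoin K {y} = ⊤ →
    ∀ l : Fin 2 → K, (∀ w : HeightOneSpectrum (𝓞 E),
      w.asIdeal.comap (algebraMap (𝓞 K) (𝓞 E)) = v.asIdeal →
        1 ≤ fa w (algebraMap K E (l 0) + algebraMap K E (l 1) * y) ∧
        fa w y ≤ fa w (algebraMap K E (l 0) + algebraMap K E (l 1) * y)) →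
    ∀ i : Fin (j + 1), fa v (mc K j y i) ≤ fa v (∑ i, vdm j l i * mc K j y i)

/-- Comparison of valuations through absolute values. -/
private lemma val_lt {K : Type*} [Field K] [NumberField K] (v : HeightOneSpectrum (𝓞 K))
    (x y : K) : v.valuation K x < v.valuation K y ↔ fa v x < fa v y := by
  rw [Pool.Agent.Lib.MP_4d5ce1_nt.fa_eq_adic, Pool.Agent.Lib.MP_4d5ce1_nt.fa_eq_adic,
    HeightOneSpectrum.adicAbv_def, HeightOneSpectrum.adicAbv_def, NNReal.coe_lt_coe]
  exact ((WithZeroMulInt.toNNReal_strictMono (by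
    have := HeightOneSpectrum.one_lt_absNorm v
    exact_mod_cast this)).lt_iff_lt).symm

/-- The primes counted by the truncated counting function form a finite set. -/
private lemma finite_counted {E : Type*} [Field E] [NumberField E] {n q : ℕ}
    (S : Set (HeightOneSpectrum (𝓞 E))) (M : Fin q → Fin (n + 1) → E) (x : Fin (n + 1) → E)
    (hM : ∀ l, lin (M l) x ≠ 0) :
    {w : HeightOneSpectrum (𝓞 E) | w ∉ S ∧ ∃ j, FinitePlace.mk w (lin (M j) x) <
      (⨆ i, FinitePlace.mk w (M j i)) * ⨆ i, FinitePlace.mk w (x i)}.Finite := by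
  have hfin : (⋃ l, ({w : HeightOneSpectrum (𝓞 E) | fa w (lin (M l) x) ≠ 1} ∪
      ({w : HeightOneSpectrum (𝓞 E) | ∃ i, M l i ≠ 0 ∧ fa w (M l i) ≠ 1} ∪
        {w : HeightOneSpectrum (𝓞 E) | ∃ i, x i ≠ 0 ∧ fa w (x i) ≠ 1}))).Finite := by
    refine Set.finite_iUnion fun l => ?_
    exact (Pool.Agent.Lib.MP_4d5ce1_nt.finite_fa_ne_one (hM l)).union
      ((finite_bad (M l)).union (finite_bad x))
  refine hfin.subset ?_
  rintro w ⟨-, l, hl⟩
  rw [Set.mem_iUnion]
  refine ⟨l, ?_⟩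
  by_contra hcon
  simp only [Set.mem_union, Set.mem_ofPred_eq, not_or] at hcon
  obtain ⟨h1, h2, h3⟩ := hcon
  have e1 : fa w (lin (M l) x) = 1 := not_not.mp h1
  have e2 : sz w (M l) ≤ 1 := sz_le_one_of_not_bad h2
  have e3 : sz w x ≤ 1 := sz_le_one_of_not_bad h3
  have hl' : fa w (lin (M l) x) < sz w (M l) * sz w x := hl
  have : sz w (M l) * sz w x ≤ 1 * 1 :=
    mul_le_mul e2 e3 (sz_nonneg w x) zero_le_one
  linarith

/-- The prime above `v` found by the reduction of the minimal polynomial. -/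
private lemma exists_above_counted {K : Type u} [Field K] [NumberField K] (hloc : LocalNorm K) {q : ℕ}
    (S : Set (HeightOneSpectrum (𝓞 K))) (L : Fin q → Fin 2 → K) (hL : ∀ l, L l ≠ 0) (j : ℕ)
    (E : Type u) [Field E] [NumberField E] [Algebra K E]
    (hE : Module.finrank K E = j) (x : Fin 2 → E) (hx : x 0 ≠ 0)
    (hy : IntermediateField.adjoin K {x 1 / x 0} = ⊤) (v : HeightOneSpectrum (𝓞 K))
    (hvS : v ∉ S) (hbad : ∀ l i, L l i ≠ 0 → fa v (L l i) = 1)
    (h : ∃ l i k, v.valuation K (∑ k, vdm j (L l) k * mc K j (x 1 / x 0) k) <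
      v.valuation K (vdm j (L l) i) * v.valuation K (mc K j (x 1 / x 0) k)) :
    ∃ w : HeightOneSpectrum (𝓞 E), w.asIdeal.comap (algebraMap (𝓞 K) (𝓞 E)) = v.asIdeal ∧
      (w ∉ above K E S ∧ ∃ l, FinitePlace.mk w (lin (up E L l) x) <
        (⨆ i, FinitePlace.mk w (up E L l i)) * ⨆ i, FinitePlace.mk w (x i)) := by
  obtain ⟨l, i, k, hlt⟩ := h
  have hle1 : ∀ i, fa v (L l i) ≤ 1 := by
    intro i
    by_cases h0 : L l i = 0
    · rw [h0, Pool.Agent.Lib.MP_4d5ce1_nt.fa_zero]; exact zero_le_one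
    · exact (hbad l i h0).le
  have hvdm : fa v (vdm j (L l) i) ≤ 1 := by
    unfold vdm
    rw [Pool.Agent.Lib.MP_4d5ce1_nt.fa_mul, Pool.Agent.Lib.MP_4d5ce1_nt.fa_pow,
      Pool.Agent.Lib.MP_4d5ce1_nt.fa_pow, Pool.Agent.Lib.MP_4d5ce1_nt.fa_neg]
    have a1 : fa v (L l 0) ^ i.val ≤ 1 :=
      pow_le_one₀ (Pool.Agent.Lib.MP_4d5ce1_nt.fa_nonneg v _) (hle1 0)
    have a2 : fa v (L l 1) ^ (j - i.val) ≤ 1 :=
      pow_le_one₀ (Pool.Agent.Lib.MP_4d5ce1_nt.fa_nonneg v _) (hle1 1)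
    have a3 : 0 ≤ fa v (L l 1) ^ (j - i.val) :=
      pow_nonneg (Pool.Agent.Lib.MP_4d5ce1_nt.fa_nonneg v _) _
    have := mul_le_mul a1 a2 a3 zero_le_one
    simpa using this
  rw [← map_mul, val_lt, Pool.Agent.Lib.MP_4d5ce1_nt.fa_mul] at hlt
  have hlt2 : fa v (∑ k, vdm j (L l) k * mc K j (x 1 / x 0) k) <
      fa v (mc K j (x 1 / x 0) k) := by
    refine hlt.trans_le ?_
    have := mul_le_mul_of_nonneg_right hvdm
      (Pool.Agent.Lib.MP_4d5ce1_nt.fa_nonneg v (mc K j (x 1 / x 0) k))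
    rwa [one_mul] at this
  have hex : ∃ w : HeightOneSpectrum (𝓞 E),
      w.asIdeal.comap (algebraMap (𝓞 K) (𝓞 E)) = v.asIdeal ∧
      ¬ (1 ≤ fa w (algebraMap K E (L l 0) + algebraMap K E (L l 1) * (x 1 / x 0)) ∧
        fa w (x 1 / x 0) ≤
          fa w (algebraMap K E (L l 0) + algebraMap K E (L l 1) * (x 1 / x 0))) := by
    by_contra hcon
    refine absurd (hloc E j hE v (x 1 / x 0) hy (L l) ?_ k) (not_le.mpr hlt2)
    intro w hw
    by_contra hc
    exact hcon ⟨w, hw, hc⟩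
  obtain ⟨w, hw, hn⟩ := hex
  refine ⟨w, hw, ?_, l, ?_⟩
  · rintro ⟨v', hv', hw'⟩
    have : v = v' := HeightOneSpectrum.ext (hw.symm.trans hw')
    exact hvS (this ▸ hv')
  · have hx0 : 0 < fa w (x 0) := Pool.Agent.Lib.MP_4d5ce1_nt.fa_pos w hx
    have hlin : lin (up E L l) x =
        x 0 * (algebraMap K E (L l 0) + algebraMap K E (L l 1) * (x 1 / x 0)) := by
      unfold lin up
      rw [Fin.sum_univ_two]
      field_simp
    have hs1 : 1 ≤ sz w (up E L l) := by
      obtain ⟨i0, hi0⟩ := Function.ne_iff.mp (hL l)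
      obtain ⟨m, -, -, hm⟩ := fa_up_lt_iff hw
      have h1 : fa w (up E L l i0) = 1 := by
        unfold up
        rw [hm, hbad l i0 hi0, one_pow]
      rw [← h1]
      exact fa_le_sz w (up E L l) i0
    have hkey : fa w (lin (up E L l) x) < sz w x := by
      rw [hlin, Pool.Agent.Lib.MP_4d5ce1_nt.fa_mul]
      rw [not_and_or, not_le, not_le] at hn
      rcases hn with hn | hn
      · calc fa w (x 0) * fa w (algebraMap K E (L l 0) + algebraMap K E (L l 1) * (x 1 / x 0))
            < fa w (x 0) * 1 := by gcongr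
          _ = fa w (x 0) := mul_one _
          _ ≤ sz w x := fa_le_sz w x 0
      · calc fa w (x 0) * fa w (algebraMap K E (L l 0) + algebraMap K E (L l 1) * (x 1 / x 0))
            < fa w (x 0) * fa w (x 1 / x 0) := by gcongr
          _ = fa w (x 1) := by
            rw [← Pool.Agent.Lib.MP_4d5ce1_nt.fa_mul]
            congr 1
            field_simp
          _ ≤ sz w x := fa_le_sz w x 1
    have hfin : sz w x ≤ sz w (up E L l) * sz w x := by
      have := mul_le_mul_of_nonneg_right hs1 (sz_nonneg w x)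
      rwa [one_mul] at this
    exact lt_of_lt_of_le hkey hfin

/-- SR7, from SR5 -/
theorem trunc_le_of {K : Type u} [Field K] [NumberField K] (hloc : LocalNorm K) {q : ℕ}
    (S : Set (HeightOneSpectrum (𝓞 K))) (L : Fin q → Fin 2 → K) (hL : ∀ l, L l ≠ 0) (j : ℕ) :
    ∃ C : ℝ, 0 ≤ C ∧ ∀ (E : Type u) [Field E] [NumberField E] [Algebra K E],
      Module.finrank K E = j → ∀ x : Fin 2 → E, x 0 ≠ 0 →
        IntermediateField.adjoin K {x 1 / x 0} = ⊤ → (∀ l, lin (up E L l) x ≠ 0) →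
        Pool.Agent.Lib.MP_44a246_nt.HP.truncCount S (fun l => vdm j (L l))
          (mc K j (x 1 / x 0)) ≤ truncCount (above K E S) (up E L) x + C := by
  classical
  have hlog : ∀ {F : Type u} [Field F] [NumberField F] (v : HeightOneSpectrum (𝓞 F)),
      0 ≤ Real.log (Ideal.absNorm v.asIdeal : ℝ) :=
    fun {F} _ _ v => Real.log_natCast_nonneg _
  have hbfin : (⋃ l, {v : HeightOneSpectrum (𝓞 K) | ∃ i, L l i ≠ 0 ∧ fa v (L l i) ≠ 1}).Finite :=
    Set.finite_iUnion fun l => finite_bad (L l)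
  set bad : Finset (HeightOneSpectrum (𝓞 K)) := hbfin.toFinset with hbad
  refine ⟨∑ v ∈ bad, Real.log (Ideal.absNorm v.asIdeal : ℝ),
    Finset.sum_nonneg fun v _ => hlog v, ?_⟩
  intro E _ _ _ hE x hx hy hlin
  set P : Set (HeightOneSpectrum (𝓞 K)) :=
    {v | v ∉ S ∧ ∃ l i k, v.valuation K (∑ k, vdm j (L l) k * mc K j (x 1 / x 0) k) <
      v.valuation K (vdm j (L l) i) * v.valuation K (mc K j (x 1 / x 0) k)} with hP
  set R : Set (HeightOneSpectrum (𝓞 E)) :=
    {w | w ∉ above K E S ∧ ∃ l, FinitePlace.mk w (lin (up E L l) x) <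
        (⨆ i, FinitePlace.mk w (up E L l i)) * ⨆ i, FinitePlace.mk w (x i)} with hR
  have hRfin : R.Finite := finite_counted (above K E S) (up E L) x hlin
  have hleft : Pool.Agent.Lib.MP_44a246_nt.HP.truncCount S (fun l => vdm j (L l))
      (mc K j (x 1 / x 0)) = ∑ᶠ v ∈ P, Real.log (Ideal.absNorm v.asIdeal : ℝ) := rfl
  have hright : truncCount (above K E S) (up E L) x =
      ∑ᶠ w ∈ R, Real.log (Ideal.absNorm w.asIdeal : ℝ) := rfl
  rw [hleft, hright, finsum_mem_eq_finite_toFinset_sum _ hRfin]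
  have hR0 : 0 ≤ ∑ w ∈ hRfin.toFinset, Real.log (Ideal.absNorm w.asIdeal : ℝ) :=
    Finset.sum_nonneg fun v _ => hlog v
  have hC0 : 0 ≤ ∑ v ∈ bad, Real.log (Ideal.absNorm v.asIdeal : ℝ) :=
    Finset.sum_nonneg fun v _ => hlog v
  by_cases hPf : P.Finite
  · rw [finsum_mem_eq_finite_toFinset_sum _ hPf]
    have hsplit := Finset.sum_filter_add_sum_filter_not hPf.toFinset (fun v => v ∈ bad)
      (fun v => Real.log (Ideal.absNorm v.asIdeal : ℝ))
    rw [← hsplit]
    have h1 : ∑ v ∈ hPf.toFinset.filter (fun v => v ∈ bad),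
        Real.log (Ideal.absNorm v.asIdeal : ℝ) ≤
        ∑ v ∈ bad, Real.log (Ideal.absNorm v.asIdeal : ℝ) := by
      refine Finset.sum_le_sum_of_subset_of_nonneg ?_ (fun v _ _ => hlog v)
      intro v hv
      exact (Finset.mem_filter.mp hv).2
    have hex : ∀ v ∈ hPf.toFinset.filter (fun v => v ∉ bad), ∃ w : HeightOneSpectrum (𝓞 E),
        w.asIdeal.comap (algebraMap (𝓞 K) (𝓞 E)) = v.asIdeal ∧ w ∈ R := by
      intro v hv
      rw [Finset.mem_filter, Set.Finite.mem_toFinset] at hv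
      obtain ⟨⟨hvS, hv1⟩, hv2⟩ := hv
      refine exists_above_counted hloc S L hL j E hE x hx hy v hvS ?_ hv1
      intro l i hli
      by_contra hne
      apply hv2
      rw [hbad, Set.Finite.mem_toFinset, Set.mem_iUnion]
      exact ⟨l, i, hli, hne⟩
    have h2 : ∑ v ∈ hPf.toFinset.filter (fun v => v ∉ bad),
        Real.log (Ideal.absNorm v.asIdeal : ℝ) ≤
        ∑ w ∈ hRfin.toFinset, Real.log (Ideal.absNorm w.asIdeal : ℝ) := by
      rcases Finset.eq_empty_or_nonempty (hPf.toFinset.filter (fun v => v ∉ bad)) with he | hne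
      · rw [he, Finset.sum_empty]
        exact hR0
      obtain ⟨v0, hv0⟩ := hne
      have hnon : Nonempty (HeightOneSpectrum (𝓞 E)) := ⟨(hex v0 hv0).choose⟩
      choose! g hg using hex
      have h3 : ∑ v ∈ hPf.toFinset.filter (fun v => v ∉ bad),
          Real.log (Ideal.absNorm v.asIdeal : ℝ) ≤
          ∑ v ∈ hPf.toFinset.filter (fun v => v ∉ bad),
            Real.log (Ideal.absNorm (g v).asIdeal : ℝ) := by
        refine Finset.sum_le_sum fun v hv => ?_
        have hup := nv_up (hg v hv).1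
        have hlo : (g v).asIdeal.LiesOver v.asIdeal := ⟨(hg v hv).1.symm⟩
        have hmax : v.asIdeal.IsMaximal := v.isMaximal
        have hf : v.asIdeal.inertiaDeg' (g v).asIdeal ≠ 0 := Ideal.inertiaDeg'_ne_zero _ _
        have h1 : nv v ≤ nv (g v) := by
          rw [hup]
          exact le_self_pow₀ (Pool.Agent.Lib.MP_4d5ce1_nt.one_lt_nv v).le hf
        exact Real.log_le_log (Pool.Agent.Lib.MP_4d5ce1_nt.nv_pos v) h1
      refine h3.trans ?_
      have hinj : Set.InjOn g (hPf.toFinset.filter (fun v => v ∉ bad) :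
          Finset (HeightOneSpectrum (𝓞 K))) := by
        intro a ha b hb hab
        have e1 := (hg a ha).1
        have e2 := (hg b hb).1
        rw [hab] at e1
        exact HeightOneSpectrum.ext (e1.symm.trans e2)
      rw [← Finset.sum_image (f := fun w : HeightOneSpectrum (𝓞 E) =>
        Real.log (Ideal.absNorm w.asIdeal : ℝ)) hinj]
      refine Finset.sum_le_sum_of_subset_of_nonneg ?_ (fun v _ _ => hlog v)
      intro w hw
      obtain ⟨v, hv, rfl⟩ := Finset.mem_image.mp hw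
      rw [Set.Finite.mem_toFinset]
      exact (hg v hv).2
    linarith
  · have h0 : ∑ᶠ v ∈ P, Real.log (Ideal.absNorm v.asIdeal : ℝ) = 0 := by
      apply finsum_mem_eq_zero_of_infinite
      have : P ∩ Function.support (fun v : HeightOneSpectrum (𝓞 K) =>
          Real.log (Ideal.absNorm v.asIdeal : ℝ)) = P := by
        apply Set.inter_eq_left.mpr
        intro v _
        exact (Pool.Agent.Lib.MP_4d5ce1_nt.log_nv_pos v).ne'
      rw [this]
      exact hPf
    rw [h0]
    linarith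

/-- SR7 : the truncated counting functions -/
theorem trunc_le {K : Type u} [Field K] [NumberField K] {q : ℕ}
    (S : Set (HeightOneSpectrum (𝓞 K))) (L : Fin q → Fin 2 → K) (hL : ∀ l, L l ≠ 0) (j : ℕ) :
    ∃ C : ℝ, 0 ≤ C ∧ ∀ (E : Type u) [Field E] [NumberField E] [Algebra K E],
      Module.finrank K E = j → ∀ x : Fin 2 → E, x 0 ≠ 0 →
        IntermediateField.adjoin K {x 1 / x 0} = ⊤ → (∀ l, lin (up E L l) x ≠ 0) →
        Pool.Agent.Lib.MP_44a246_nt.HP.truncCount S (fun l => vdm j (L l))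
          (mc K j (x 1 / x 0)) ≤ truncCount (above K E S) (up E L) x + C :=
  trunc_le_of (fun _ _ _ _ _ hE v y hy l h i => local_norm hE v y hy l h i) S L hL j

end Pool.Agent.Lib.MP_44a246_ntSR
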