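import Pool.Agent.Lib.MP_44a246_ntSR.Defs

set_option autoImplicit false

open NumberField IsDedekindDomain

namespace Pool.Agent.Lib.MP_44a246_ntSR

universe u

/-- A point of the line with nonzero first coordinate is determined by the quotient. -/
private lemma proj_eq_of_div {F : Type*} [Field F] (P Q : Projectivization F (Fin 2 → F))
    (hP : P.rep 0 ≠ 0) (hQ : Q.rep 0 ≠ 0) (h : P.rep 1 / P.rep 0 = Q.rep 1 / Q.rep 0) : P = Q := by
  rw [← P.mk_rep, ← Q.mk_rep, Projectivization.mk_eq_mk_iff']
  refine ⟨P.rep 0 / Q.rep 0, ?_⟩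
  funext i
  fin_cases i
  · simp [div_mul_cancel₀ _ hQ]
  · simp only [Fin.mk_one, Pi.smul_apply, smul_eq_mul]
    have h1 : P.rep 1 = Q.rep 1 / Q.rep 0 * P.rep 0 := by
      rw [← h, div_mul_cancel₀ _ hP]
    change P.rep 0 / Q.rep 0 * Q.rep 1 = P.rep 1
    rw [h1]
    ring

/-- SR8 : fibres of the map to the minimal polynomials -/
theorem card_fibre {K : Type u} [Field K] {j : ℕ} (X : Finset (Σ F : IntermediateField K
      (AlgebraicClosure K), Projectivization F (Fin 2 → F)))
    (hX : ∀ s ∈ X, Prim s ∧ Module.finrank K s.1 = j) (g : Fin (j + 1) → K)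
    (hg : ∀ s ∈ X, mc K j (s.2.rep 1 / s.2.rep 0) = g) : X.card ≤ j := by
  classical
  set z : (Σ F : IntermediateField K (AlgebraicClosure K),
    Projectivization F (Fin 2 → F)) → AlgebraicClosure K :=
    fun s => ((s.2.rep 1 / s.2.rep 0 : s.1) : AlgebraicClosure K) with hz
  have hmin : ∀ s : (Σ F : IntermediateField K (AlgebraicClosure K),
      Projectivization F (Fin 2 → F)), minpoly K (z s) = minpoly K (s.2.rep 1 / s.2.rep 0) := by
    intro s
    exact (minpoly.algebraMap_eq (A := K) (B := s.1) (B' := AlgebraicClosure K)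
      (algebraMap s.1 (AlgebraicClosure K)).injective (s.2.rep 1 / s.2.rep 0))
  have hint : ∀ s : (Σ F : IntermediateField K (AlgebraicClosure K),
      Projectivization F (Fin 2 → F)), IsIntegral K (z s) := by
    intro s
    exact (Algebra.IsAlgebraic.isAlgebraic (R := K) (z s)).isIntegral
  have hint' : ∀ s : (Σ F : IntermediateField K (AlgebraicClosure K),
      Projectivization F (Fin 2 → F)), IsIntegral K (s.2.rep 1 / s.2.rep 0) := by
    intro s
    exact (isIntegral_algebraMap_iff (algebraMap s.1 (AlgebraicClosure K)).injective).1 (hint s)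
  have hdeg : ∀ s ∈ X, (minpoly K (z s)).natDegree = j := by
    intro s hs
    rw [hmin, ← IntermediateField.adjoin.finrank (hint' s), (hX s hs).1.2,
      IntermediateField.finrank_top']
    exact (hX s hs).2
  have hadj : ∀ s ∈ X, IntermediateField.adjoin K {z s} = s.1 := by
    intro s hs
    have h1 := IntermediateField.lift_adjoin (F := K) s.1 {s.2.rep 1 / s.2.rep 0}
    rw [(hX s hs).1.2, IntermediateField.lift_top, Set.image_singleton] at h1
    exact h1.symm
  have hinj : Set.InjOn z (X : Set (Σ F : IntermediateField K (AlgebraicClosure K),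
      Projectivization F (Fin 2 → F))) := by
    intro s hs t ht hst
    have hE : s.1 = t.1 := by
      rw [← hadj s hs, ← hadj t ht, hst]
    have hs' := (hX s hs).1.1
    have ht' := (hX t ht).1.1
    obtain ⟨E, P⟩ := s
    obtain ⟨E', Q⟩ := t
    change E = E' at hE
    subst hE
    have h2 : P.rep 1 / P.rep 0 = Q.rep 1 / Q.rep 0 := Subtype.ext hst
    rw [proj_eq_of_div P Q hs' ht' h2]
  rcases X.eq_empty_or_nonempty with hX0 | ⟨s0, hs0⟩
  · simp [hX0]
  have hsame : ∀ s ∈ X, minpoly K (z s) = minpoly K (z s0) := by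
    intro s hs
    ext n
    by_cases hn : n ≤ j
    · have h1 := congrFun (hg s hs) ⟨n, Nat.lt_succ_of_le hn⟩
      have h2 := congrFun (hg s0 hs0) ⟨n, Nat.lt_succ_of_le hn⟩
      rw [hmin, hmin]
      exact h1.trans h2.symm
    · rw [Polynomial.coeff_eq_zero_of_natDegree_lt, Polynomial.coeff_eq_zero_of_natDegree_lt]
      · rw [hdeg s0 hs0]; omega
      · rw [hdeg s hs]; omega
  set f : Polynomial (AlgebraicClosure K) :=
    (minpoly K (z s0)).map (algebraMap K (AlgebraicClosure K)) with hf
  have hf0 : f ≠ 0 := by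
    rw [hf]
    exact Polynomial.map_monic_ne_zero (minpoly.monic (hint s0))
  have hsub : X.image z ⊆ f.roots.toFinset := by
    intro w hw
    obtain ⟨s, hs, rfl⟩ := Finset.mem_image.1 hw
    rw [Multiset.mem_toFinset, Polynomial.mem_roots hf0, Polynomial.IsRoot.def, hf,
      Polynomial.eval_map_algebraMap, ← hsame s hs]
    exact minpoly.aeval K (z s)
  calc X.card = (X.image z).card := (Finset.card_image_of_injOn hinj).symm
    _ ≤ f.roots.toFinset.card := Finset.card_le_card hsub
    _ ≤ Multiset.card f.roots := Multiset.toFinset_card_le _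
    _ ≤ f.natDegree := Polynomial.card_roots' f
    _ = j := by rw [hf, Polynomial.natDegree_map, hdeg s0 hs0]

end Pool.Agent.Lib.MP_44a246_ntSR
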