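import Pool.Agent.Lib.MP_44a246_ntSR.SR4
import Pool.Agent.Lib.MP_44a246_ntSR.SR5
import Pool.Agent.Lib.MP_44a246_ntSR.SR6
import Pool.Agent.Lib.MP_44a246_ntSR.SR7
import Pool.Agent.Lib.MP_44a246_ntSR.SR8
import Pool.Agent.Lib.MP_44a246_ntNF.NF6d
import Pool.Agent.Lib.MP_44a246_ntNF.Both
import Pool.Agent.Lib.MP_44a246_nt.HQ.Final2

set_option autoImplicit false

open NumberField IsDedekindDomain Height
open Pool.Agent.Lib.MP_4d5ce1_nt (fa nv ordv)
open Pool.Agent.Lib.MP_44a246_ntNF
open Pool.Agent.Lib.MP_44a246_ntNU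

namespace Pool.Agent.Lib.MP_44a246_ntSR

universe u

/-- SR7 : the truncated counting functions -/
private theorem trunc_le_aux {K : Type u} [Field K] [NumberField K] {q : ℕ}
    (S : Set (HeightOneSpectrum (𝓞 K))) (L : Fin q → Fin 2 → K) (hL : ∀ l, L l ≠ 0) (j : ℕ) :
    ∃ C : ℝ, 0 ≤ C ∧ ∀ (E : Type u) [Field E] [NumberField E] [Algebra K E],
      Module.finrank K E = j → ∀ x : Fin 2 → E, x 0 ≠ 0 →
        IntermediateField.adjoin K {x 1 / x 0} = ⊤ → (∀ l, lin (up E L l) x ≠ 0) →
        Pool.Agent.Lib.MP_44a246_nt.HP.truncCount S (fun l => vdm j (L l))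
          (mc K j (x 1 / x 0)) ≤ truncCount (above K E S) (up E L) x + C :=
  trunc_le_of (fun _ _ _ _ _ hE v y hy l h i => local_norm hE v y hy l h i) S L hL j

section forms

variable {K : Type*} [Field K] [NumberField K] {n q : ℕ}

private lemma sr10_exists_sz (v : HeightOneSpectrum (𝓞 K)) (x : Fin (n + 1) → K) :
    ∃ i, sz v x = fa v (x i) := by
  obtain ⟨i, hi⟩ := exists_eq_ciSup_of_finite (f := fun i => fa v (x i))
  exact ⟨i, hi.symm⟩

private lemma sr10_log (v : HeightOneSpectrum (𝓞 K)) {a x : Fin (n + 1) → K} (ha : a ≠ 0)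
    (hx : x ≠ 0) (hl : lin a x ≠ 0) (h : fa v (lin a x) < sz v a * sz v x) :
    Real.log (nv v) ≤ Real.log (sz v a) + Real.log (sz v x) - Real.log (fa v (lin a x)) := by
  obtain ⟨i, hi⟩ := sr10_exists_sz v a
  obtain ⟨k, hk⟩ := sr10_exists_sz v x
  have hsa := sz_pos v ha
  have hsx := sz_pos v hx
  have hprod : sz v a * sz v x = fa v (a i * x k) := by
    rw [hi, hk, Pool.Agent.Lib.MP_4d5ce1_nt.fa_mul]
  have hne : a i * x k ≠ 0 := by
    intro h0
    rw [h0, Pool.Agent.Lib.MP_4d5ce1_nt.fa_zero] at hprod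
    exact (mul_pos hsa hsx).ne' hprod
  rw [hprod] at h
  have h1 := nv_mul_le_of_lt v hl hne h
  have hf := Pool.Agent.Lib.MP_4d5ce1_nt.fa_pos v hl
  have h2 := Real.log_le_log (mul_pos (Pool.Agent.Lib.MP_4d5ce1_nt.nv_pos v) hf) h1
  rw [Real.log_mul (Pool.Agent.Lib.MP_4d5ce1_nt.nv_pos v).ne' hf.ne', ← hprod,
    Real.log_mul hsa.ne' hsx.ne'] at h2
  linarith

private lemma sr10_finite {a x : Fin (n + 1) → K} (ha : a ≠ 0) (hx : x ≠ 0) (hl : lin a x ≠ 0) :
    {v : HeightOneSpectrum (𝓞 K) | fa v (lin a x) < sz v a * sz v x}.Finite := by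
  refine (((finite_sz_ne_one ha).union (finite_sz_ne_one hx)).union
    (Pool.Agent.Lib.MP_4d5ce1_nt.finite_fa_ne_one hl)).subset ?_
  intro v hv
  by_contra hcon
  simp only [Set.mem_union, Set.mem_ofPred_eq, not_or, not_not] at hcon hv
  rw [hcon.1.1, hcon.1.2, hcon.2] at hv
  norm_num at hv

private lemma sr10_one_form (a : Fin (n + 1) → K) (ha : a ≠ 0) :
    ∃ C : ℝ, 0 ≤ C ∧ ∀ x : Fin (n + 1) → K, lin a x ≠ 0 →
      ∀ U : Finset (HeightOneSpectrum (𝓞 K)), (∀ v ∈ U, fa v (lin a x) < sz v a * sz v x) →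
        ∑ v ∈ U, Real.log (nv v) ≤ logHeight x + C := by
  classical
  refine ⟨|∑ w : InfinitePlace K, (w.mult : ℝ) * Real.log ((∑ i, w (a i)) + 1) +
    ∑ᶠ v : HeightOneSpectrum (𝓞 K), Real.log (sz v a)|, abs_nonneg _, ?_⟩
  intro x hl U hU
  have hx : x ≠ 0 := ne_zero_of_lin hl
  have hprod := Pool.Agent.Lib.MP_4d5ce1_nt.product_formula hl
  rw [logHeight_eq' hx]
  have hinf : ∑ w : InfinitePlace K, (w.mult : ℝ) * Real.log (w (lin a x)) ≤
      ∑ w : InfinitePlace K, ((w.mult : ℝ) * Real.log ((∑ i, w (a i)) + 1) +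
        (w.mult : ℝ) * Real.log (az w x)) := by
    refine Finset.sum_le_sum fun w _ => ?_
    rw [← mul_add]
    refine mul_le_mul_of_nonneg_left ?_ (Nat.cast_nonneg _)
    have hs : 0 ≤ ∑ i, w (a i) := Finset.sum_nonneg fun i _ => apply_nonneg w _
    rw [← Real.log_mul (by linarith) (az_pos w hx).ne']
    refine Real.log_le_log (InfinitePlace.pos_iff.mpr hl) ?_
    refine (inf_lin_le w a x).trans ?_
    exact mul_le_mul_of_nonneg_right (by linarith) (az_pos w hx).le
  rw [Finset.sum_add_distrib] at hinf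
  let Z : Finset (HeightOneSpectrum (𝓞 K)) :=
    (finite_sz_ne_one hx).toFinset ∪
      (Pool.Agent.Lib.MP_4d5ce1_nt.finite_fa_ne_one hl).toFinset ∪
        (finite_sz_ne_one ha).toFinset ∪ U
  have hlog : ∀ (f : HeightOneSpectrum (𝓞 K) → ℝ), (∀ v, f v ≠ 1 → v ∈ Z) →
      ∑ᶠ v : HeightOneSpectrum (𝓞 K), Real.log (f v) = ∑ v ∈ Z, Real.log (f v) := by
    intro f hf
    refine finsum_eq_sum_of_support_subset _ ?_
    intro v hv
    refine hf v ?_
    intro h
    apply hv
    show Real.log (f v) = 0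
    rw [h, Real.log_one]
  have h1 := hlog (fun v => sz v x) (fun v hv => by
    simp only [Z, Finset.mem_union, Set.Finite.mem_toFinset, Set.mem_ofPred_eq]
    exact Or.inl (Or.inl (Or.inl hv)))
  have h2 := hlog (fun v => fa v (lin a x)) (fun v hv => by
    simp only [Z, Finset.mem_union, Set.Finite.mem_toFinset, Set.mem_ofPred_eq]
    exact Or.inl (Or.inl (Or.inr hv)))
  have h3 := hlog (fun v => sz v a) (fun v hv => by
    simp only [Z, Finset.mem_union, Set.Finite.mem_toFinset, Set.mem_ofPred_eq]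
    exact Or.inl (Or.inr hv))
  have h4 : ∑ v ∈ Z, (if v ∈ U then Real.log (nv v) else 0) ≤
      ∑ v ∈ Z, (Real.log (sz v a) + Real.log (sz v x) - Real.log (fa v (lin a x))) := by
    refine Finset.sum_le_sum fun v _ => ?_
    have hs := sz_pos v hx
    have hsa := sz_pos v ha
    have hf := Pool.Agent.Lib.MP_4d5ce1_nt.fa_pos v hl
    by_cases hvU : v ∈ U
    · rw [if_pos hvU]
      exact sr10_log v ha hx hl (hU v hvU)
    · rw [if_neg hvU]
      have h5 := Real.log_le_log hf (fa_lin_le v a x)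
      rw [Real.log_mul hsa.ne' hs.ne'] at h5
      linarith
  rw [Finset.sum_sub_distrib, Finset.sum_add_distrib, Finset.sum_ite_mem,
    Finset.inter_eq_right.mpr] at h4
  · rw [h1]
    rw [h2] at hprod
    rw [h3]
    have habs := le_abs_self (∑ w : InfinitePlace K,
      (w.mult : ℝ) * Real.log ((∑ i, w (a i)) + 1) + ∑ v ∈ Z, Real.log (sz v a))
    linarith
  · intro v hv
    simp only [Z, Finset.mem_union]
    exact Or.inr hv

omit [NumberField K] in
private lemma sr10_sum_biUnion_le {ι : Type*} [DecidableEq ι]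
    [DecidableEq (HeightOneSpectrum (𝓞 K))] (F : Finset ι)
    (t : ι → Finset (HeightOneSpectrum (𝓞 K))) (f : HeightOneSpectrum (𝓞 K) → ℝ)
    (hf : ∀ v, 0 ≤ f v) : ∑ v ∈ F.biUnion t, f v ≤ ∑ l ∈ F, ∑ v ∈ t l, f v := by
  induction F using Finset.induction_on with
  | empty => simp
  | insert l F hl ih =>
    rw [Finset.biUnion_insert, Finset.sum_insert hl]
    have h1 := Finset.sum_union_inter (s₁ := t l) (s₂ := F.biUnion t) (f := f)
    have h2 := Finset.sum_nonneg (s := t l ∩ F.biUnion t) (f := f) (fun v _ => hf v)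
    linarith

private lemma sr10_extend {Q : ℕ} (hQ : 0 < Q) (hq : q ≤ Q) (S : Set (HeightOneSpectrum (𝓞 K)))
    (a : Fin Q → Fin (n + 1) → K) (ha : ∀ l, a l ≠ 0) :
    ∃ C : ℝ, 0 ≤ C ∧ ∀ x : Fin (n + 1) → K, (∀ l, lin (a l) x ≠ 0) →
      truncCount S a x ≤ truncCount S (fun l : Fin q => a (Fin.castLE hq l)) x +
        ((Q : ℝ) - q) * logHeight x + C := by
  classical
  choose C hC0 hC using fun l => sr10_one_form (a l) (ha l)
  set F : Finset (Fin Q) := Finset.univ.filter (fun l => q ≤ l.val) with hF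
  refine ⟨∑ l ∈ F, C l, Finset.sum_nonneg fun l _ => hC0 l, ?_⟩
  intro x hx
  have hx0 : x ≠ 0 := ne_zero_of_lin (hx ⟨0, hQ⟩)
  have hfin : ∀ l, {v : HeightOneSpectrum (𝓞 K) | fa v (lin (a l) x) <
      sz v (a l) * sz v x}.Finite := fun l => sr10_finite (ha l) hx0 (hx l)
  have hT' : {v : HeightOneSpectrum (𝓞 K) | v ∉ S ∧ ∃ l, fa v (lin (a l) x) <
      sz v (a l) * sz v x}.Finite := by
    refine (Set.finite_iUnion hfin).subset ?_
    rintro v ⟨_, l, hl⟩
    exact Set.mem_iUnion.mpr ⟨l, hl⟩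
  have hT : {v : HeightOneSpectrum (𝓞 K) | v ∉ S ∧ ∃ l : Fin q, fa v (lin (a (Fin.castLE hq l)) x) <
      sz v (a (Fin.castLE hq l)) * sz v x}.Finite := by
    refine hT'.subset ?_
    rintro v ⟨h1, l, hl⟩
    exact ⟨h1, _, hl⟩
  have e1 : truncCount S a x = ∑ v ∈ hT'.toFinset, Real.log (nv v) := by
    rw [← finsum_mem_coe_finset, Set.Finite.coe_toFinset]
    rfl
  have e2 : truncCount S (fun l : Fin q => a (Fin.castLE hq l)) x =
      ∑ v ∈ hT.toFinset, Real.log (nv v) := by
    rw [← finsum_mem_coe_finset, Set.Finite.coe_toFinset]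
    rfl
  have hnn : ∀ v : HeightOneSpectrum (𝓞 K), 0 ≤ Real.log (nv v) := fun v =>
    (Pool.Agent.Lib.MP_4d5ce1_nt.log_nv_pos v).le
  have hsub : hT'.toFinset ⊆ hT.toFinset ∪ F.biUnion (fun l => (hfin l).toFinset) := by
    intro v hv
    rw [Set.Finite.mem_toFinset] at hv
    obtain ⟨hvS, l, hl⟩ := hv
    rw [Finset.mem_union]
    by_cases hlq : l.val < q
    · left
      rw [Set.Finite.mem_toFinset]
      exact ⟨hvS, ⟨l.val, hlq⟩, hl⟩
    · right
      rw [Finset.mem_biUnion]
      refine ⟨l, ?_, ?_⟩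
      · rw [hF, Finset.mem_filter]
        exact ⟨Finset.mem_univ _, by omega⟩
      · rw [Set.Finite.mem_toFinset]
        exact hl
  have hcard : (F.card : ℝ) = (Q : ℝ) - q := by
    have h1 : F.card = Q - q := by
      have h2 : F = (Finset.univ : Finset (Fin Q)).filter (fun l => ¬ (l.val < q)) := by
        rw [hF]
        refine Finset.filter_congr fun l _ => ?_
        omega
      have h3 := Finset.card_filter_add_card_filter_not (s := (Finset.univ : Finset (Fin Q)))
        (fun l => l.val < q)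
      rw [Finset.card_univ, Fintype.card_fin] at h3
      have h4 : ((Finset.univ : Finset (Fin Q)).filter (fun l => l.val < q)).card = q := by
        rw [Fin.card_filter_val_lt]
        omega
      rw [h2]
      omega
    rw [h1, Nat.cast_sub hq]
  rw [e1, e2]
  calc ∑ v ∈ hT'.toFinset, Real.log (nv v)
      ≤ ∑ v ∈ hT.toFinset ∪ F.biUnion (fun l => (hfin l).toFinset), Real.log (nv v) :=
        Finset.sum_le_sum_of_subset_of_nonneg hsub fun v _ _ => hnn v
    _ ≤ ∑ v ∈ hT.toFinset, Real.log (nv v) +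
        ∑ v ∈ F.biUnion (fun l => (hfin l).toFinset), Real.log (nv v) := by
        rw [← Finset.sum_union_inter]
        have := Finset.sum_nonneg (s := hT.toFinset ∩ F.biUnion (fun l => (hfin l).toFinset))
          (f := fun v => Real.log (nv v)) (fun v _ => hnn v)
        linarith
    _ ≤ ∑ v ∈ hT.toFinset, Real.log (nv v) +
        ∑ l ∈ F, ∑ v ∈ (hfin l).toFinset, Real.log (nv v) := by
        gcongr
        exact sr10_sum_biUnion_le _ _ _ hnn
    _ ≤ ∑ v ∈ hT.toFinset, Real.log (nv v) + ∑ l ∈ F, (logHeight x + C l) := by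
        gcongr with l hl
        refine hC l x (hx l) _ ?_
        intro v hv
        rw [Set.Finite.mem_toFinset] at hv
        exact hv
    _ = _ := by
        rw [Finset.sum_add_distrib, Finset.sum_const, nsmul_eq_mul, hcard]
        ring

end forms

private lemma sr10_ext {K : Type*} [Field K] [Infinite K] {q : ℕ} (L : Fin q → Fin 2 → K)
    (hL0 : ∀ l, L l ≠ 0) (hL : ∀ a b, a ≠ b → L a 0 * L b 1 - L a 1 * L b 0 ≠ 0) (Q : ℕ)
    (hq : q ≤ Q) : ∃ L' : Fin Q → Fin 2 → K, (∀ l, L' (Fin.castLE hq l) = L l) ∧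
      (∀ l, L' l ≠ 0) ∧ ∀ a b, a ≠ b → L' a 0 * L' b 1 - L' a 1 * L' b 0 ≠ 0 := by
  classical
  induction Q, hq using Nat.le_induction with
  | base => exact ⟨L, fun l => rfl, hL0, hL⟩
  | succ Q hq ih =>
    obtain ⟨L', h1, h2, h3⟩ := ih
    obtain ⟨a, ha⟩ := Infinite.exists_notMem_finset
      ((Finset.univ : Finset (Fin Q)).image fun l => - L' l 0 / L' l 1)
    have ha' : ∀ l, L' l 0 + a * L' l 1 ≠ 0 := by
      intro l h
      by_cases hl : L' l 1 = 0
      · rw [hl, mul_zero, add_zero] at h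
        refine h2 l ?_
        funext i
        fin_cases i
        · exact h
        · exact hl
      · apply ha
        rw [Finset.mem_image]
        refine ⟨l, Finset.mem_univ _, ?_⟩
        rw [div_eq_iff hl]
        linear_combination -h
    refine ⟨Fin.snoc (α := fun _ => Fin 2 → K) L' ![-a, 1], ?_, ?_, ?_⟩
    · intro l
      have : Fin.castLE (Nat.le_succ_of_le hq) l = Fin.castSucc (Fin.castLE hq l) := rfl
      rw [this, Fin.snoc_castSucc, h1]
    · intro l
      induction l using Fin.lastCases with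
      | last =>
        rw [Fin.snoc_last]
        intro h
        have := congrFun h 1
        simp at this
      | cast l => rw [Fin.snoc_castSucc]; exact h2 l
    · intro b c hbc
      induction b using Fin.lastCases with
      | last =>
        induction c using Fin.lastCases with
        | last => exact absurd rfl hbc
        | cast c =>
          rw [Fin.snoc_last, Fin.snoc_castSucc]
          simp only [Matrix.cons_val_zero, Matrix.cons_val_one]
          intro h
          apply ha' c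
          linear_combination -h
      | cast b =>
        induction c using Fin.lastCases with
        | last =>
          rw [Fin.snoc_last, Fin.snoc_castSucc]
          simp only [Matrix.cons_val_zero, Matrix.cons_val_one]
          intro h
          apply ha' b
          linear_combination h
        | cast c =>
          rw [Fin.snoc_castSucc, Fin.snoc_castSucc]
          exact h3 b c (fun h => hbc (by rw [h]))

/-- The value of a form at the coefficients of the minimal polynomial. -/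
private lemma sr10_vdm_ne {K E : Type*} [Field K] [Field E] [Algebra K E] [FiniteDimensional K E]
    {j : ℕ} (hj : 2 ≤ j) (hE : Module.finrank K E = j) (y : E)
    (hy : IntermediateField.adjoin K {y} = ⊤) (l : Fin 2 → K) (hl : l ≠ 0) :
    lin (vdm j l) (mc K j y) ≠ 0 ∧ mc K j y (Fin.last j) = 1 := by
  have hint : IsIntegral K y := IsIntegral.of_finite K y
  have hdeg : (minpoly K y).natDegree = j := by
    rw [← IntermediateField.adjoin.finrank hint, hy, IntermediateField.finrank_top', hE]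
  have hmon := minpoly.monic hint
  have hlast : mc K j y (Fin.last j) = 1 := by
    have := hmon.coeff_natDegree
    rw [hdeg] at this
    exact this
  refine ⟨?_, hlast⟩
  have hval : lin (vdm j l) (mc K j y) =
      ∑ i ∈ Finset.range (j + 1), (-l 0) ^ i * l 1 ^ (j - i) * (minpoly K y).coeff i := by
    rw [Finset.sum_range]
    rfl
  rw [hval]
  by_cases hl1 : l 1 = 0
  · have hl0 : l 0 ≠ 0 := by
      intro h0
      apply hl
      funext i
      fin_cases i
      · exact h0
      · exact hl1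
    rw [Finset.sum_eq_single j]
    · rw [Nat.sub_self, pow_zero, mul_one]
      refine mul_ne_zero (pow_ne_zero _ (neg_ne_zero.mpr hl0)) ?_
      have : (minpoly K y).coeff j = 1 := hlast
      rw [this]
      exact one_ne_zero
    · intro i hi hij
      have : j - i ≠ 0 := by
        have := Finset.mem_range.mp hi
        omega
      rw [hl1, zero_pow this, mul_zero, zero_mul]
    · intro h
      exact absurd (Finset.mem_range.mpr (Nat.lt_succ_self j)) h
  · have heval : ∑ i ∈ Finset.range (j + 1), (-l 0) ^ i * l 1 ^ (j - i) * (minpoly K y).coeff i =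
        l 1 ^ j * (minpoly K y).eval (-l 0 / l 1) := by
      rw [Polynomial.eval_eq_sum_range, hdeg, Finset.mul_sum]
      refine Finset.sum_congr rfl fun i hi => ?_
      have hi' : i ≤ j := Nat.lt_succ_iff.mp (Finset.mem_range.mp hi)
      have h2 : l 1 ^ j = l 1 ^ i * l 1 ^ (j - i) := by
        rw [← pow_add, Nat.add_sub_cancel' hi']
      rw [div_pow, h2]
      field_simp
    rw [heval]
    refine mul_ne_zero (pow_ne_zero _ hl1) ?_
    intro hroot
    have hirr := minpoly.irreducible hint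
    have h1 := Polynomial.degree_eq_one_of_irreducible_of_root hirr hroot
    have h2 : (minpoly K y).natDegree = 1 := Polynomial.natDegree_eq_of_degree_eq_some h1
    omega

private lemma sr10_logHeight_rep {E : Type*} [Field E] [NumberField E]
    (P : Projectivization E (Fin 2 → E)) (h0 : P.rep 0 ≠ 0) :
    logHeight P.rep = logHeight ![1, P.rep 1 / P.rep 0] := by
  have h : P.rep = P.rep 0 • ![1, P.rep 1 / P.rep 0] := by
    funext i
    fin_cases i
    · simp
    · simp only [Pi.smul_apply, smul_eq_mul, Fin.mk_one, Matrix.cons_val_one,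
        Matrix.cons_val_fin_one]
      field_simp
  conv_lhs => rw [h]
  exact logHeight_smul_eq_logHeight _ h0

/-- SR10 : one degree, general exponent -/
theorem sym_count_jD {K : Type u} [Field K] [NumberField K] {q : ℕ}
    {S : Set (HeightOneSpectrum (𝓞 K))} (hS : S.Finite) (L : Fin q → Fin 2 → K)
    (hL0 : ∀ l, L l ≠ 0)
    (hL : ∀ a b, a ≠ b → L a 0 * L b 1 - L a 1 * L b 0 ≠ 0) (j : ℕ) (hj : 2 ≤ j)
    (ρ c η : ℝ) (hρ : 0 ≤ ρ) (hρq : ρ ≤ q) (hη : 0 < η) :
    ∃ C : ℝ, ∀ B : ℝ, 1 ≤ B → ∀ X : Finset (Σ F : IntermediateField K (AlgebraicClosure K),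
        Projectivization F (Fin 2 → F)),
      (∀ s ∈ X, ∃ _ : NumberField s.1, Module.finrank K s.1 = j ∧ Prim s ∧
        (∀ l, lin (up s.1 L l) s.2.rep ≠ 0) ∧ s.2.mulHeight ≤ B ∧
        truncCount (above K s.1 S) (up s.1 L) s.2.rep ≤ ρ * s.2.logHeight + c) →
      (X.card : ℝ) ≤ C * B ^ ((j : ℝ) + 1 - min 1 (q - ρ) + η) := by
  classical
  obtain ⟨Q, hqQ, hjQ⟩ : ∃ Q : ℕ, q ≤ Q ∧ j + 1 ≤ Q := ⟨max q (j + 1), le_max_left _ _,
    le_max_right _ _⟩
  obtain ⟨L', hL'1, hL'0, hL'⟩ := sr10_ext L hL0 hL Q hqQ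
  obtain ⟨C4, hC40, hC4⟩ := height_minpoly (K := K) j
  obtain ⟨C7, hC70, hC7⟩ := trunc_le_aux S L hL0 j
  set a : Fin Q → Fin (j + 1) → K := fun l => vdm j (L' l) with ha
  have hgp : ∀ s : Fin (j + 1) → Fin Q, Function.Injective s →
      LinearIndependent K fun i => a (s i) := fun s hs => linInd_vdm L' hL' s hs
  have ha0 : ∀ l, a l ≠ 0 := by
    intro l h
    by_cases hl1 : L' l 1 = 0
    · have h1 := congrFun h (Fin.last j)
      have hl0 : L' l 0 ≠ 0 := by
        intro h0
        apply hL'0 l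
        funext i
        fin_cases i
        · exact h0
        · exact hl1
      simp only [ha, vdm, Fin.val_last, Nat.sub_self, pow_zero, mul_one, Pi.zero_apply] at h1
      exact pow_ne_zero _ (neg_ne_zero.mpr hl0) h1
    · have h1 := congrFun h 0
      simp only [ha, vdm, Fin.val_zero, pow_zero, one_mul, Pi.zero_apply] at h1
      exact pow_ne_zero _ hl1 h1
  obtain ⟨Cx, hCx0, hCx⟩ := sr10_extend (q := q) (n := j) (by omega : 0 < Q) hqQ S a ha0
  set D : ℝ := q - ρ with hD
  have hD0 : 0 ≤ D := by rw [hD]; linarith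
  set e : ℝ := (j : ℝ) + 1 - min 1 D + η with he
  obtain ⟨C, hC⟩ := Pool.Agent.Lib.MP_44a246_nt.HQ.upper_count K j Q hj hjQ a hgp S hS D
    (ρ * C4 + c + C7 + Cx) η hD0 hη
  refine ⟨j * (|C| * Real.exp C4 ^ e), ?_⟩
  intro B hB X hX
  have hX' : ∀ s ∈ X, Prim s ∧ Module.finrank K s.1 = j := fun s hs => by
    obtain ⟨_, h1, h2, _⟩ := hX s hs
    exact ⟨h2, h1⟩
  set g : (Σ F : IntermediateField K (AlgebraicClosure K), Projectivization F (Fin 2 → F)) →
    Fin (j + 1) → K := fun s => mc K j (s.2.rep 1 / s.2.rep 0) with hg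
  have hfd : ∀ s ∈ X, FiniteDimensional K s.1 := fun s hs => by
    apply Module.finite_of_finrank_pos
    rw [(hX' s hs).2]
    omega
  have hvdm : ∀ s ∈ X, ∀ l, lin (a l) (g s) ≠ 0 ∧ g s (Fin.last j) = 1 := by
    intro s hs l
    have := hfd s hs
    exact sr10_vdm_ne hj (hX' s hs).2 _ (hX' s hs).1.2 (L' l) (hL'0 l)
  -- heights
  have hht : ∀ s ∈ X, ∀ _ : NumberField s.1,
      |logHeight (g s) - s.2.logHeight| ≤ C4 := by
    intro s hs _
    have h1 := hC4 s.1 (hX' s hs).2 (s.2.rep 1 / s.2.rep 0) (hX' s hs).1.2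
    rw [← sr10_logHeight_rep s.2 (hX' s hs).1.1] at h1
    have h2 : s.2.logHeight = logHeight s.2.rep := by
      conv_lhs => rw [← Projectivization.mk_rep s.2]
      exact Projectivization.logHeight_mk _
    rw [h2]
    exact h1
  have hcardX : X.card ≤ j * (X.image g).card := by
    refine Finset.card_le_mul_card_image X j ?_
    intro b hb
    refine card_fibre (X.filter fun s => g s = b) ?_ b ?_
    · intro s hs
      exact hX' s (Finset.mem_filter.mp hs).1
    · intro s hs
      exact (Finset.mem_filter.mp hs).2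
  have hB' : 1 ≤ B * Real.exp C4 := by
    have := Real.one_le_exp hC40
    nlinarith
  have key := hC (B * Real.exp C4) hB' (X.image g) ?_ ?_ ?_ ?_
  · rw [← he, Real.mul_rpow (by linarith) (Real.exp_pos _).le] at key
    have hBp : 0 < B ^ e := Real.rpow_pos_of_pos (by linarith) _
    have hep : 0 < Real.exp C4 ^ e := Real.rpow_pos_of_pos (Real.exp_pos _) _
    calc (X.card : ℝ) ≤ ((j * (X.image g).card : ℕ) : ℝ) := by exact_mod_cast hcardX
      _ = j * ((X.image g).card : ℝ) := by push_cast; ring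
      _ ≤ j * (C * (B ^ e * Real.exp C4 ^ e)) := by gcongr
      _ ≤ j * (|C| * (B ^ e * Real.exp C4 ^ e)) := by
          gcongr
          exact le_abs_self C
      _ = _ := by ring
  · intro x hx l
    obtain ⟨s, hs, rfl⟩ := Finset.mem_image.mp hx
    exact (hvdm s hs l).1
  · intro x hx y hy hxy
    obtain ⟨s, hs, rfl⟩ := Finset.mem_image.mp hx
    obtain ⟨t, ht, rfl⟩ := Finset.mem_image.mp hy
    have hs1 := (hvdm s hs ⟨0, by omega⟩).2
    have ht1 := (hvdm t ht ⟨0, by omega⟩).2
    rw [LinearIndependent.pair_iff]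
    intro α β hαβ
    have h1 := congrFun hαβ (Fin.last j)
    simp only [Pi.add_apply, Pi.smul_apply, smul_eq_mul, hs1, ht1, mul_one, Pi.zero_apply] at h1
    have hβ : β = -α := by linear_combination h1
    have hα : α = 0 := by
      by_contra hα
      apply hxy
      rw [hβ, neg_smul, ← sub_eq_add_neg, ← smul_sub] at hαβ
      exact sub_eq_zero.mp ((smul_eq_zero.mp hαβ).resolve_left hα)
    exact ⟨hα, by rw [hβ, hα, neg_zero]⟩
  · intro x hx
    obtain ⟨s, hs, rfl⟩ := Finset.mem_image.mp hx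
    obtain ⟨hnf, -, -, -, hsB, -⟩ := hX s hs
    have h1 := abs_le.mp (hht s hs hnf)
    have h2 : s.2.logHeight ≤ Real.log B := by
      rw [Projectivization.logHeight_eq_log_mulHeight]
      exact Real.log_le_log (Projectivization.mulHeight_pos _) hsB
    have h3 : logHeight (g s) ≤ Real.log B + C4 := by linarith [h1.2]
    have h4 : mulHeight (g s) = Real.exp (logHeight (g s)) := by
      rw [logHeight_eq_log_mulHeight, Real.exp_log (mulHeight_pos _)]
    rw [h4]
    refine (Real.exp_le_exp.mpr h3).trans ?_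
    rw [Real.exp_add, Real.exp_log (by linarith)]
  · intro x hx
    obtain ⟨s, hs, rfl⟩ := Finset.mem_image.mp hx
    obtain ⟨hnf, hfr, hpr, hls, hsB, htr⟩ := hX s hs
    have h1 := abs_le.mp (hht s hs hnf)
    have h2 := hCx (g s) (fun l => (hvdm s hs l).1)
    have h3 := hC7 s.1 hfr s.2.rep hpr.1 hpr.2 hls
    have h4 : (fun l : Fin q => a (Fin.castLE hqQ l)) = fun l => vdm j (L l) := by
      funext l
      rw [ha]
      simp only
      rw [hL'1 l]
    rw [truncCount_eq] at h3 ⊢
    rw [h4] at h2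
    have h5 : truncCount S (fun l => vdm j (L l)) (g s) ≤
        ρ * s.2.logHeight + c + C7 := by
      refine h3.trans ?_
      linarith
    have h6 : ρ * s.2.logHeight ≤ ρ * (logHeight (g s) + C4) := by
      refine mul_le_mul_of_nonneg_left ?_ hρ
      linarith [h1.1]
    rw [hD]
    linarith

/-- SR10 : one degree -/
theorem sym_count_j {K : Type u} [Field K] [NumberField K] {q : ℕ}
    {S : Set (HeightOneSpectrum (𝓞 K))} (hS : S.Finite) (L : Fin q → Fin 2 → K)
    (hL0 : ∀ l, L l ≠ 0)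
    (hL : ∀ a b, a ≠ b → L a 0 * L b 1 - L a 1 * L b 0 ≠ 0) (j : ℕ) (hj : 2 ≤ j)
    (ρ c η : ℝ) (hρ : 0 ≤ ρ) (hρq : ρ ≤ q - 1) (hη : 0 < η) :
    ∃ C : ℝ, ∀ B : ℝ, 1 ≤ B → ∀ X : Finset (Σ F : IntermediateField K (AlgebraicClosure K),
        Projectivization F (Fin 2 → F)),
      (∀ s ∈ X, ∃ _ : NumberField s.1, Module.finrank K s.1 = j ∧ Prim s ∧
        (∀ l, lin (up s.1 L l) s.2.rep ≠ 0) ∧ s.2.mulHeight ≤ B ∧
        truncCount (above K s.1 S) (up s.1 L) s.2.rep ≤ ρ * s.2.logHeight + c) →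
      (X.card : ℝ) ≤ C * B ^ ((j : ℝ) + η) := by
  have h := sym_count_jD hS L hL0 hL j hj ρ c η hρ (by linarith) hη
  rw [min_eq_left (by linarith)] at h
  have he : (j : ℝ) + 1 - 1 + η = j + η := by ring
  rwa [he] at h

end Pool.Agent.Lib.MP_44a246_ntSR
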