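import Pool.Agent.Lib.MP_44a246_ntSR.Defs
import Pool.Agent.Lib.MP_44a246_nt.HP.Balance
import Pool.Agent.Lib.MP_44a246_nt.HP.Coord

set_option autoImplicit false

open NumberField IsDedekindDomain Height
open Pool.Agent.Lib.MP_4d5ce1_nt (fa nv ordv)
open Pool.Agent.Lib.MP_44a246_nt.HP (dg lnv Bal exists_bal coord_card)

namespace Pool.Agent.Lib.MP_44a246_ntSR

universe u

/-- SR9 : rational points of the line -/
theorem count_rational (K : Type*) [Field K] [NumberField K] (η : ℝ) (hη : 0 < η) :
    ∃ C : ℝ, ∀ B : ℝ, 1 ≤ B → ∀ X : Finset (Projectivization K (Fin 2 → K)),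
      (∀ P ∈ X, P.mulHeight ≤ B) → (X.card : ℝ) ≤ C * B ^ (2 + η) := by
  classical
  obtain ⟨C₀, hC₀, hbal⟩ := exists_bal K 2
  obtain ⟨C₁, hC₁, hcc⟩ := coord_card K C₀ hC₀
  refine ⟨(C₁ + 1) ^ 2, fun B hB X hX => ?_⟩
  have hB0 : 0 < B := by linarith
  choose! t ht hb using fun P : Projectivization K (Fin 2 → K) => hbal P.rep P.rep_nonzero
  let y : Projectivization K (Fin 2 → K) → Fin 2 → K := fun P => t P • P.rep
  have hy : ∀ P, Bal C₀ (y P) := hb
  have hlog : ∀ P ∈ X, logHeight (y P) ≤ Real.log B := by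
    intro P hP
    have h1 : logHeight (y P) = logHeight P.rep := logHeight_smul_eq_logHeight _ (ht P)
    rw [h1]
    have h2 : P.mulHeight = mulHeight P.rep := by
      conv_lhs => rw [← P.mk_rep]
      rfl
    have h3 := hX P hP
    rw [h2] at h3
    exact Real.log_le_log (mulHeight_pos _) h3
  set U : Finset K := ((X ×ˢ (Finset.univ : Finset (Fin 2))).image fun p => y p.1 p.2).filter
    (fun u => u ≠ 0) with hU
  have hUcard : (U.card : ℝ) ≤ C₁ * B := by
    have h1 := hcc (Real.log B) 0 (fun _ => 0) U ?_ ?_ ?_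
    · simp only [Finsupp.support_zero, Finset.sum_empty, sub_zero, Nat.cast_zero,
        Finset.sum_const_zero, Real.exp_log hB0] at h1
      exact h1
    · intro u hu
      exact (Finset.mem_filter.1 hu).2
    · intro u hu v
      obtain ⟨p, hp, rfl⟩ := Finset.mem_image.1 (Finset.mem_filter.1 hu).1
      simpa using (hy p.1).int v p.2
    · intro u hu w
      obtain ⟨p, hp, rfl⟩ := Finset.mem_image.1 (Finset.mem_filter.1 hu).1
      refine ((hy p.1).up w p.2).trans ?_
      have hp1 : p.1 ∈ X := (Finset.mem_product.1 hp).1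
      have hdg : 0 < dg K := by
        unfold dg
        exact_mod_cast Module.finrank_pos (R := ℚ) (M := K)
      simp only [Nat.cast_zero, zero_div, sub_zero]
      have := hlog p.1 hp1
      gcongr
  have hinj : X.card ≤ ((insert 0 U) ×ˢ (insert 0 U)).card := by
    refine Finset.card_le_card_of_injOn (fun P => (y P 0, y P 1)) ?_ ?_
    · intro P hP
      have hmem : ∀ i, y P i ∈ insert 0 U := by
        intro i
        by_cases h0 : y P i = 0
        · rw [h0]
          exact Finset.mem_insert_self _ _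
        · refine Finset.mem_insert_of_mem (Finset.mem_filter.2 ⟨?_, h0⟩)
          exact Finset.mem_image.2 ⟨(P, i), Finset.mem_product.2 ⟨hP, Finset.mem_univ _⟩, rfl⟩
      exact Finset.mem_coe.2 (Finset.mem_product.2 ⟨hmem 0, hmem 1⟩)
    · intro P _ Q _ hPQ
      simp only [Prod.mk.injEq] at hPQ
      have h1 : y P = y Q := by
        funext i
        fin_cases i
        · exact hPQ.1
        · exact hPQ.2
      have h2 : ∀ R : Projectivization K (Fin 2 → K), R = Projectivization.mk K (y R) (hy R).ne := by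
        intro R
        conv_lhs => rw [← R.mk_rep]
        rw [Projectivization.mk_eq_mk_iff']
        exact ⟨(t R)⁻¹, by
          change (t R)⁻¹ • (t R • R.rep) = R.rep
          rw [smul_smul, inv_mul_cancel₀ (ht R), one_smul]⟩
      rw [h2 P, h2 Q]
      congr 1
  rw [Finset.card_product] at hinj
  have hins : ((insert 0 U).card : ℝ) ≤ (C₁ + 1) * B := by
    have h1 : ((insert 0 U).card : ℝ) ≤ U.card + 1 := by
      exact_mod_cast Finset.card_insert_le _ _
    nlinarith
  have h2 : (X.card : ℝ) ≤ ((insert 0 U).card : ℝ) * ((insert 0 U).card : ℝ) := by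
    exact_mod_cast hinj
  have h3 : B ^ (2 : ℝ) ≤ B ^ (2 + η) := Real.rpow_le_rpow_of_exponent_le hB (by linarith)
  rw [Real.rpow_two] at h3
  calc (X.card : ℝ) ≤ ((insert 0 U).card : ℝ) * ((insert 0 U).card : ℝ) := h2
    _ ≤ ((C₁ + 1) * B) * ((C₁ + 1) * B) := by gcongr
    _ = (C₁ + 1) ^ 2 * B ^ 2 := by ring
    _ ≤ (C₁ + 1) ^ 2 * B ^ (2 + η) := by gcongr

end Pool.Agent.Lib.MP_44a246_ntSR
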