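import Pool.Agent.Lib.MP_44a246_ntSR.Defs
import Pool.Agent.Lib.MP_44a246_ntSR.SR9
import Pool.Agent.Lib.MP_44a246_ntSR.SR10

set_option autoImplicit false

open NumberField IsDedekindDomain Height
open Pool.Agent.Lib.MP_44a246_ntNF
open Pool.Agent.Lib.MP_44a246_ntNU

namespace Pool.Agent.Lib.MP_44a246_ntSR

universe u

theorem prim_of_adjoin {K : Type u} [Field K] (s : Σ F : IntermediateField K (AlgebraicClosure K),
    Projectivization F (Fin 2 → F)) (h2 : 2 ≤ Module.finrank K s.1)
    (h : IntermediateField.adjoin K {z | ∃ i k, z = s.2.rep i / s.2.rep k} = ⊤) : Prim s := by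
  have h0 : s.2.rep 0 ≠ 0 := by
    intro h0
    have h1 : IntermediateField.adjoin K {z | ∃ i k, z = s.2.rep i / s.2.rep k} ≤ ⊥ := by
      rw [IntermediateField.adjoin_le_iff]
      rintro z ⟨i, k, rfl⟩
      simp only [SetLike.mem_coe]
      fin_cases i <;> fin_cases k
      · simp [h0]
      · simp [h0]
      · simp [h0]
      · by_cases h1 : s.2.rep 1 = 0
        · simp [h1]
        · simp only [Fin.mk_one, div_self h1]
          exact one_mem _
    rw [h, top_le_iff] at h1
    have h2' := IntermediateField.finrank_top' (F := K) (E := s.1)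
    rw [← h1, IntermediateField.finrank_bot] at h2'
    omega
  refine ⟨h0, ?_⟩
  rw [← top_le_iff, ← h, IntermediateField.adjoin_le_iff]
  have hy : s.2.rep 1 / s.2.rep 0 ∈ IntermediateField.adjoin K {s.2.rep 1 / s.2.rep 0} :=
    IntermediateField.mem_adjoin_simple_self K _
  rintro z ⟨i, k, rfl⟩
  simp only [SetLike.mem_coe]
  fin_cases i <;> fin_cases k
  · simp only [Fin.zero_eta, div_self h0]
    exact one_mem _
  · simp only [Fin.zero_eta, Fin.mk_one]
    have h3 := inv_mem hy
    rwa [inv_div] at h3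
  · exact hy
  · by_cases h1 : s.2.rep 1 = 0
    · simp [h1]
    · simp only [Fin.mk_one, div_self h1]
      exact one_mem _

/-- SR11 : points of degree at most `r` of the line, general exponent -/
theorem sym_countD {K : Type u} [Field K] [NumberField K] {q : ℕ}
    {S : Set (HeightOneSpectrum (𝓞 K))} (hS : S.Finite) (L : Fin q → Fin 2 → K)
    (hL0 : ∀ l, L l ≠ 0)
    (hL : ∀ a b, a ≠ b → L a 0 * L b 1 - L a 1 * L b 0 ≠ 0) (r : ℕ) (hr : 2 ≤ r)
    (ρ c η : ℝ) (hρ : 0 ≤ ρ) (hρq : ρ ≤ q) (hη : 0 < η) :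
    ∃ C : ℝ, ∀ B : ℝ, 1 ≤ B → ∀ X : Finset (Σ F : IntermediateField K (AlgebraicClosure K),
        Projectivization F (Fin (1 + 1) → F)),
      (∀ s ∈ X, ∃ _ : NumberField s.1, Module.finrank K s.1 ≤ r ∧
        IntermediateField.adjoin K {z | ∃ i k, z = s.2.rep i / s.2.rep k} = ⊤ ∧
        (∀ l, lin (up s.1 L l) s.2.rep ≠ 0) ∧ s.2.mulHeight ≤ B ∧
        truncCount (above K s.1 S) (up s.1 L) s.2.rep ≤ ρ * s.2.logHeight + c) →
      (X.card : ℝ) ≤ C * B ^ ((r : ℝ) + 1 - min 1 (q - ρ) + η) := by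
  classical
  have hj : ∀ j : ℕ, ∃ C : ℝ, 2 ≤ j → ∀ B : ℝ, 1 ≤ B →
      ∀ X : Finset (Σ F : IntermediateField K (AlgebraicClosure K),
        Projectivization F (Fin 2 → F)),
      (∀ s ∈ X, ∃ _ : NumberField s.1, Module.finrank K s.1 = j ∧ Prim s ∧
        (∀ l, lin (up s.1 L l) s.2.rep ≠ 0) ∧ s.2.mulHeight ≤ B ∧
        truncCount (above K s.1 S) (up s.1 L) s.2.rep ≤ ρ * s.2.logHeight + c) →
      (X.card : ℝ) ≤ C * B ^ ((j : ℝ) + 1 - min 1 (q - ρ) + η) := by
    intro j
    by_cases h : 2 ≤ j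
    · obtain ⟨C, hC⟩ := sym_count_jD hS L hL0 hL j h ρ c η hρ hρq hη
      exact ⟨C, fun _ => hC⟩
    · exact ⟨0, fun h' => absurd h' h⟩
  choose C hC using hj
  have : NumberField (⊥ : IntermediateField K (AlgebraicClosure K)) :=
    NumberField.of_module_finite K _
  obtain ⟨C1, hC1⟩ := count_rational (⊥ : IntermediateField K (AlgebraicClosure K)) η hη
  refine ⟨|C1| + ∑ j ∈ Finset.range (r + 1), |C j|, ?_⟩
  intro B hB X hX
  have hB0 : 0 < B := by linarith
  -- the part of degree one
  have h1 : ((X.filter fun s => Module.finrank K s.1 = 1).card : ℝ) ≤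
      |C1| * B ^ ((r : ℝ) + 1 - min 1 (q - ρ) + η) := by
    set Y := X.filter fun s => Module.finrank K s.1 = 1 with hY
    let mk : Projectivization (⊥ : IntermediateField K (AlgebraicClosure K))
        (Fin 2 → (⊥ : IntermediateField K (AlgebraicClosure K))) →
        (Σ F : IntermediateField K (AlgebraicClosure K), Projectivization F (Fin 2 → F)) :=
      fun P => ⟨⊥, P⟩
    have hmk : Function.Injective mk := by
      intro P Q h
      exact eq_of_heq (Sigma.mk.inj h).2
    set Z : Finset (Projectivization (⊥ : IntermediateField K (AlgebraicClosure K))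
      (Fin 2 → (⊥ : IntermediateField K (AlgebraicClosure K)))) :=
      Y.preimage mk (hmk.injOn) with hZ
    have hcard : Y.card = Z.card := by
      have : Z.image mk = Y := by
        ext s
        simp only [Finset.mem_image, hZ, Finset.mem_preimage]
        constructor
        · rintro ⟨P, hP, rfl⟩
          exact hP
        · intro hs
          have hs' := (Finset.mem_filter.mp hs).2
          obtain ⟨F, P⟩ := s
          obtain rfl : F = ⊥ := IntermediateField.finrank_eq_one_iff.mp hs'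
          exact ⟨P, hs, rfl⟩
      rw [← this, Finset.card_image_of_injective _ hmk]
    rw [hcard]
    have h2 := hC1 B hB Z (by
      intro P hP
      rw [hZ, Finset.mem_preimage, hY, Finset.mem_filter] at hP
      obtain ⟨_, _, _, _, h5, _⟩ := hX _ hP.1
      exact h5)
    refine h2.trans ?_
    calc C1 * B ^ (2 + η) ≤ |C1| * B ^ (2 + η) :=
          mul_le_mul_of_nonneg_right (le_abs_self _) (by positivity)
      _ ≤ |C1| * B ^ ((r : ℝ) + 1 - min 1 (q - ρ) + η) := by
          apply mul_le_mul_of_nonneg_left _ (abs_nonneg _)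
          apply Real.rpow_le_rpow_of_exponent_le hB
          have : (2 : ℝ) ≤ r := by exact_mod_cast hr
          have := min_le_left (1 : ℝ) (q - ρ)
          linarith
  have h2 : ∀ j ∈ Finset.range (r + 1), 2 ≤ j →
      ((X.filter fun s => Module.finrank K s.1 = j).card : ℝ) ≤ |C j| * B ^ ((r : ℝ) + 1 - min 1 (q - ρ) + η) := by
    intro j hjr hj2
    have hjr' : j ≤ r := by
      rw [Finset.mem_range] at hjr
      omega
    have h3 := hC j hj2 B hB (X.filter fun s => Module.finrank K s.1 = j) (by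
      intro s hs
      rw [Finset.mem_filter] at hs
      obtain ⟨a0, a1, a2, a3, a4, a5⟩ := hX s hs.1
      exact ⟨a0, hs.2, prim_of_adjoin s (by rw [hs.2]; exact hj2) a2, a3, a4, a5⟩)
    refine h3.trans ?_
    calc C j * B ^ ((j : ℝ) + 1 - min 1 (q - ρ) + η) ≤ |C j| * B ^ ((j : ℝ) + 1 - min 1 (q - ρ) + η) :=
          mul_le_mul_of_nonneg_right (le_abs_self _) (by positivity)
      _ ≤ |C j| * B ^ ((r : ℝ) + 1 - min 1 (q - ρ) + η) := by
          apply mul_le_mul_of_nonneg_left _ (abs_nonneg _)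
          apply Real.rpow_le_rpow_of_exponent_le hB
          have : (j : ℝ) ≤ r := by exact_mod_cast hjr'
          linarith
  have h3 : X ⊆ (X.filter fun s => Module.finrank K s.1 = 1) ∪
      (((Finset.range (r + 1)).filter fun j => 2 ≤ j).biUnion
        fun j => X.filter fun s => Module.finrank K s.1 = j) := by
    intro s hs
    obtain ⟨a0, a1, a2, a3, a4, a5⟩ := hX s hs
    have := a0
    have : FiniteDimensional K s.1 := Module.Finite.of_restrictScalars_finite ℚ K s.1
    have hpos : 0 < Module.finrank K s.1 := Module.finrank_pos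
    rw [Finset.mem_union, Finset.mem_filter, Finset.mem_biUnion]
    by_cases h : Module.finrank K s.1 = 1
    · exact Or.inl ⟨hs, h⟩
    · refine Or.inr ⟨Module.finrank K s.1, ?_, Finset.mem_filter.mpr ⟨hs, rfl⟩⟩
      rw [Finset.mem_filter, Finset.mem_range]
      omega
  have h4 : (X.card : ℝ) ≤ ((X.filter fun s => Module.finrank K s.1 = 1).card : ℝ) +
      ∑ j ∈ (Finset.range (r + 1)).filter (fun j => 2 ≤ j),
        ((X.filter fun s => Module.finrank K s.1 = j).card : ℝ) := by
    have h5 := (Finset.card_le_card h3).trans (Finset.card_union_le _ _)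
    have h6 := Finset.card_biUnion_le (s := (Finset.range (r + 1)).filter fun j => 2 ≤ j)
      (t := fun j => X.filter fun s => Module.finrank K s.1 = j)
    have h7 := h5.trans (Nat.add_le_add_left h6 _)
    exact_mod_cast h7
  refine h4.trans ?_
  rw [add_mul, Finset.sum_mul]
  apply add_le_add h1
  calc ∑ j ∈ (Finset.range (r + 1)).filter (fun j => 2 ≤ j),
        ((X.filter fun s => Module.finrank K s.1 = j).card : ℝ)
      ≤ ∑ j ∈ (Finset.range (r + 1)).filter (fun j => 2 ≤ j), |C j| * B ^ ((r : ℝ) + 1 - min 1 (q - ρ) + η) := by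
        apply Finset.sum_le_sum
        intro j hj
        rw [Finset.mem_filter] at hj
        exact h2 j hj.1 hj.2
    _ ≤ ∑ j ∈ Finset.range (r + 1), |C j| * B ^ ((r : ℝ) + 1 - min 1 (q - ρ) + η) := by
        apply Finset.sum_le_sum_of_subset_of_nonneg (Finset.filter_subset _ _)
        intro j _ _
        positivity

/-- SR11 : points of degree at most `r` of the line -/
theorem sym_count {K : Type u} [Field K] [NumberField K] {q : ℕ}
    {S : Set (HeightOneSpectrum (𝓞 K))} (hS : S.Finite) (L : Fin q → Fin 2 → K)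
    (hL0 : ∀ l, L l ≠ 0)
    (hL : ∀ a b, a ≠ b → L a 0 * L b 1 - L a 1 * L b 0 ≠ 0) (r : ℕ) (hr : 2 ≤ r)
    (ρ c η : ℝ) (hρ : 0 ≤ ρ) (hρq : ρ ≤ q - 1) (hη : 0 < η) :
    ∃ C : ℝ, ∀ B : ℝ, 1 ≤ B → ∀ X : Finset (Σ F : IntermediateField K (AlgebraicClosure K),
        Projectivization F (Fin (1 + 1) → F)),
      (∀ s ∈ X, ∃ _ : NumberField s.1, Module.finrank K s.1 ≤ r ∧
        IntermediateField.adjoin K {z | ∃ i k, z = s.2.rep i / s.2.rep k} = ⊤ ∧
        (∀ l, lin (up s.1 L l) s.2.rep ≠ 0) ∧ s.2.mulHeight ≤ B ∧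
        truncCount (above K s.1 S) (up s.1 L) s.2.rep ≤ ρ * s.2.logHeight + c) →
      (X.card : ℝ) ≤ C * B ^ ((r : ℝ) + η) := by
  have h := sym_countD hS L hL0 hL r hr ρ c η hρ (by linarith) hη
  rw [min_eq_left (by linarith)] at h
  have he : (r : ℝ) + 1 - 1 + η = r + η := by ring
  rwa [he] at h

end Pool.Agent.Lib.MP_44a246_ntSR
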