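import Pool.Agent.Lib.MP_44a246_ntSR.Defs
import Mathlib.NumberTheory.Height.MvPolynomial
import Mathlib.NumberTheory.Height.NumberField

/-!
# Height of a product of linear factors, upper bound

The coefficient vector of `∏ (X - y_k)` is the image of the Segre vector of the `[1 : -y_k]` under a
linear map with entries `0` and `1`.
-/

set_option autoImplicit false

open NumberField Height

namespace Pool.Agent.Lib.MP_44a246_ntSR

universe u

/-- A nonzero vector with entries `0` and `1` has height one. -/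
private lemma mulHeight_zero_one {L : Type*} [Field L] [NumberField L] {ι : Type*} [Finite ι]
    (A : ι → L) (hA : ∀ i, A i = 0 ∨ A i = 1) : mulHeight A = 1 := by
  rw [mulHeight_eq_mulHeight_restrict_support]
  have h : (fun i : Function.support A => A i) = 1 := by
    funext i
    exact (hA i).resolve_left i.2
  rw [h, mulHeight_one]

private lemma prod_lin {L : Type*} [CommRing L] (j : ℕ) (y : Fin j → L) (i : ℕ) :
    (∏ k, (Polynomial.X - Polynomial.C (y k))).coeff i =
      ∑ f : Fin j → Fin 2, (if ∑ k, (if f k = 0 then 1 else 0) = i then (1 : L) else 0) *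
        ∏ k, ![1, -y k] (f k) := by
  have h1 : ∀ k, (Polynomial.X - Polynomial.C (y k)) =
      ∑ b : Fin 2, Polynomial.C (![1, -y k] b) * Polynomial.X ^ (if b = 0 then 1 else 0) := by
    intro k
    rw [Fin.sum_univ_two]
    simp [sub_eq_add_neg]
  simp_rw [h1]
  rw [Finset.prod_univ_sum, Fintype.piFinset_univ, Polynomial.finsetSum_coeff]
  refine Finset.sum_congr rfl fun f _ => ?_
  rw [Finset.prod_mul_distrib, Finset.prod_pow_eq_pow_sum, ← map_prod, Polynomial.coeff_C_mul,
    Polynomial.coeff_X_pow, mul_comm]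
  congr 1
  simp only [eq_comm]

/-- SR3a -/
theorem height_prod_up (j d : ℕ) : ∃ C : ℝ, 1 ≤ C ∧ ∀ (L : Type u) [Field L] [NumberField L],
    Module.finrank ℚ L ≤ d → ∀ y : Fin j → L,
      mulHeight (fun i : Fin (j + 1) =>
        (∏ k, (Polynomial.X - Polynomial.C (y k))).coeff i.val) ≤
          C * ∏ k, mulHeight ![1, y k] := by
  refine ⟨((2 : ℝ) ^ j) ^ d, one_le_pow₀ (one_le_pow₀ one_le_two), ?_⟩
  intro L _ _ hL y
  obtain ⟨A, hA⟩ : ∃ A : Fin (j + 1) × (Fin j → Fin 2) → L, ∀ i f, A (i, f) =
      if ∑ k, (if f k = 0 then 1 else 0) = i.val then (1 : L) else 0 :=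
    ⟨fun p => if ∑ k, (if p.2 k = 0 then 1 else 0) = p.1.val then (1 : L) else 0,
      fun i f => rfl⟩
  have e1 : (fun i : Fin (j + 1) => (∏ k, (Polynomial.X - Polynomial.C (y k))).coeff i.val) =
      fun i : Fin (j + 1) => ∑ f : Fin j → Fin 2, A (i, f) *
        (fun f : Fin j → Fin 2 => ∏ k, ![1, -y k] (f k)) f := by
    funext i
    rw [prod_lin j y i.val]
    exact Finset.sum_congr rfl fun f _ => by rw [hA]
  rw [e1]
  refine (mulHeight_linearMap_apply_le A _).trans ?_
  rw [mulHeight_zero_one A fun ⟨i, f⟩ => by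
    rw [hA]
    by_cases h : ∑ k, (if f k = 0 then 1 else 0) = i.val
    · exact Or.inr (if_pos h)
    · exact Or.inl (if_neg h)]
  have h0 : ∀ k, (![1, -y k] : Fin 2 → L) ≠ 0 := fun k h => by
    have := congrFun h 0
    simp at this
  rw [mulHeight_fun_prod_eq (x := fun k => (![1, -y k] : Fin 2 → L)) h0]
  have e2 : ∀ k, mulHeight (![1, -y k] : Fin 2 → L) = mulHeight ![1, y k] := by
    intro k
    rw [mulHeight_swap, mulHeight_swap 1 (y k), ← mulHeight₁_eq_mulHeight,
      ← mulHeight₁_eq_mulHeight, mulHeight₁_neg]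
  rw [Finset.prod_congr rfl fun k _ => e2 k, mul_one]
  refine mul_le_mul_of_nonneg_right ?_ (Finset.prod_nonneg fun k _ => (mulHeight_pos _).le)
  rw [totalWeight_eq_finrank, Nat.card_eq_fintype_card, Fintype.card_fun, Fintype.card_fin,
    Fintype.card_fin]
  push_cast
  exact pow_le_pow_right₀ (one_le_pow₀ one_le_two) hL

end Pool.Agent.Lib.MP_44a246_ntSR
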