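import Pool.Agent.Lib.MP_44a246_ntSR.SR0
import Pool.Agent.Lib.MP_44a246_ntSR.SR1
import Pool.Agent.Lib.MP_44a246_ntSR.SR3

/-!
# The height of the minimal polynomial
-/

set_option autoImplicit false

open NumberField IsDedekindDomain Height

namespace Pool.Agent.Lib.MP_44a246_ntSR

universe u

/-- The height of a conjugate. -/
private lemma height_conj {K : Type u} [Field K] [NumberField K] {E L : Type u} [Field E]
    [NumberField E] [Algebra K E] [Field L] [NumberField L] [Algebra K L] (σ : E →ₐ[K] L) (y : E) :
    mulHeight ![1, σ y] = mulHeight ![1, y] ^ (Module.finrank K L / Module.finrank K E) := by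
  let i1 : Algebra E L := σ.toRingHom.toAlgebra
  have hT : IsScalarTower K E L := IsScalarTower.of_algebraMap_eq (fun x => (σ.commutes x).symm)
  have hE : Module.Finite K E := Module.Finite.of_restrictScalars_finite ℚ K E
  have hpos : 0 < Module.finrank K E := Module.finrank_pos
  have h1 : Module.finrank K E * Module.finrank E L = Module.finrank K L :=
    Module.finrank_mul_finrank K E L
  have h2 : Module.finrank K L / Module.finrank K E = Module.finrank E L := by
    rw [← h1, Nat.mul_div_cancel_left _ hpos]
  rw [h2, ← mulHeight_ext (K := E) (L := L) ![1, y]]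
  congr 1
  funext i
  refine Fin.cases ?_ (fun i => ?_) i
  · exact (map_one σ).symm
  · have : i = 0 := Subsingleton.elim _ _
    subst this
    rfl

/-- SR4 : height of the minimal polynomial -/
theorem height_minpoly {K : Type u} [Field K] [NumberField K] (j : ℕ) : ∃ C : ℝ, 0 ≤ C ∧
    ∀ (E : Type u) [Field E] [NumberField E] [Algebra K E], Module.finrank K E = j → ∀ y : E,
      IntermediateField.adjoin K {y} = ⊤ →
        |logHeight (mc K j y) - logHeight ![1, y]| ≤ C := by
  obtain ⟨C, hC1, hC⟩ := height_prod.{u} j (Module.finrank ℚ K * j.factorial)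
  refine ⟨Real.log C, Real.log_nonneg hC1, ?_⟩
  intro E _ _ _ hE y hy
  obtain ⟨L, iL1, iL2, iL3, σ, hL, hf⟩ := exists_closure j E hE y hy
  have hfE : Module.Finite K E := Module.Finite.of_restrictScalars_finite ℚ K E
  have hfL : Module.Finite K L := Module.Finite.of_restrictScalars_finite ℚ K L
  have hj : 0 < j := by rw [← hE]; exact Module.finrank_pos
  have hdeg : Module.finrank ℚ L ≤ Module.finrank ℚ K * j.factorial := by
    rw [← Module.finrank_mul_finrank ℚ K L]
    exact Nat.mul_le_mul_left _ hL
  obtain ⟨h1, h2⟩ := hC L hdeg (fun k => σ k y)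
  set m := Module.finrank K L with hm
  have hmpos : 0 < m := Module.finrank_pos
  -- the coefficients
  have hcoef : mulHeight (fun i : Fin (j + 1) =>
      (∏ k, (Polynomial.X - Polynomial.C (σ k y))).coeff i.val) = mulHeight (mc K j y) ^ m := by
    rw [← mulHeight_ext (K := K) (L := L) (mc K j y), ← hf]
    congr 1
    funext i
    simp [mc, Polynomial.coeff_map]
  -- the conjugates
  have hdvd : j ∣ m := by
    have k0 : Fin j := ⟨0, hj⟩
    let i1 : Algebra E L := (σ k0).toRingHom.toAlgebra
    have hT : IsScalarTower K E L :=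
      IsScalarTower.of_algebraMap_eq (fun x => ((σ k0).commutes x).symm)
    exact ⟨Module.finrank E L, by rw [hm, ← hE]; exact (Module.finrank_mul_finrank K E L).symm⟩
  have hprod : ∏ k, mulHeight ![1, σ k y] = mulHeight ![1, y] ^ m := by
    have : ∀ k : Fin j, mulHeight ![1, σ k y] = mulHeight ![1, y] ^ (m / j) := by
      intro k
      rw [height_conj (σ k) y, hE]
    rw [Finset.prod_congr rfl (fun k _ => this k), Finset.prod_const, Finset.card_univ,
      Fintype.card_fin, ← pow_mul, Nat.div_mul_cancel hdvd]
  rw [hcoef, hprod] at h1 h2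
  have p1 : 0 < mulHeight (mc K j y) := mulHeight_pos _
  have p2 : 0 < mulHeight ![1, y] := mulHeight_pos _
  have hC0 : 0 < C := lt_of_lt_of_le one_pos hC1
  have l1 : (m : ℝ) * logHeight (mc K j y) ≤ Real.log C + m * logHeight ![1, y] := by
    have := Real.log_le_log (pow_pos p1 m) h1
    rwa [Real.log_pow, Real.log_mul hC0.ne' (pow_pos p2 m).ne', Real.log_pow] at this
  have l2 : (m : ℝ) * logHeight ![1, y] ≤ Real.log C + m * logHeight (mc K j y) := by
    have := Real.log_le_log (pow_pos p2 m) h2
    rwa [Real.log_pow, Real.log_mul hC0.ne' (pow_pos p1 m).ne', Real.log_pow] at this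
  have hm1 : (1 : ℝ) ≤ m := by exact_mod_cast hmpos
  have hl : 0 ≤ Real.log C := Real.log_nonneg hC1
  have habs : (m : ℝ) * |logHeight (mc K j y) - logHeight ![1, y]| ≤ Real.log C := by
    have e : (m : ℝ) * |logHeight (mc K j y) - logHeight ![1, y]| =
        |(m : ℝ) * (logHeight (mc K j y) - logHeight ![1, y])| := by
      rw [abs_mul, abs_of_nonneg (zero_le_one.trans hm1)]
    rw [e, abs_le]
    constructor <;> nlinarith
  calc |logHeight (mc K j y) - logHeight ![1, y]|
      ≤ (m : ℝ) * |logHeight (mc K j y) - logHeight ![1, y]| :=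
        le_mul_of_one_le_left (abs_nonneg _) hm1
    _ ≤ Real.log C := habs

end Pool.Agent.Lib.MP_44a246_ntSR
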