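import Pool.Agent.Lib.MP_44a246_ntSR.Defs
import Pool.Agent.Lib.MP_44a246_ntNF.Tools
import Pool.Agent.Lib.MP_44a246_nt.HP.Defs

set_option autoImplicit false

open NumberField IsDedekindDomain Height
open Pool.Agent.Lib.MP_4d5ce1_nt (fa nv ordv)
open Pool.Agent.Lib.MP_44a246_ntNF
open Pool.Agent.Lib.MP_44a246_ntNU

namespace Pool.Agent.Lib.MP_44a246_ntSR

universe u

/-- SR1 : heights in extensions -/
theorem mulHeight_ext {K L : Type*} [Field K] [NumberField K] [Field L] [NumberField L]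
    [Algebra K L] {ι : Type*} [Finite ι] (x : ι → K) :
    mulHeight (fun i => algebraMap K L (x i)) = mulHeight x ^ Module.finrank K L := by
  sorry

/-- SR3 : height of the coefficients of a product of linear factors -/
theorem height_prod (j d : ℕ) : ∃ C : ℝ, 1 ≤ C ∧ ∀ (L : Type u) [Field L] [NumberField L],
    Module.finrank ℚ L ≤ d → ∀ y : Fin j → L,
      mulHeight (fun i : Fin (j + 1) =>
        (∏ k, (Polynomial.X - Polynomial.C (y k))).coeff i.val) ≤
          C * ∏ k, mulHeight ![1, y k] ∧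
      ∏ k, mulHeight ![1, y k] ≤ C * mulHeight (fun i : Fin (j + 1) =>
        (∏ k, (Polynomial.X - Polynomial.C (y k))).coeff i.val) := by
  sorry

/-- SR0 : a normal closure -/
theorem exists_closure {K : Type u} [Field K] [NumberField K] (j : ℕ) (E : Type u) [Field E]
    [NumberField E] [Algebra K E] (hE : Module.finrank K E = j) (y : E)
    (hy : IntermediateField.adjoin K {y} = ⊤) :
    ∃ (L : Type u) (_ : Field L) (_ : NumberField L) (_ : Algebra K L) (σ : Fin j → (E →ₐ[K] L)),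
      Module.finrank K L ≤ j.factorial ∧
      (minpoly K y).map (algebraMap K L) = ∏ k, (Polynomial.X - Polynomial.C (σ k y)) := by
  sorry

/-- SR4 : height of the minimal polynomial -/
theorem height_minpoly {K : Type u} [Field K] [NumberField K] (j : ℕ) : ∃ C : ℝ, 0 ≤ C ∧
    ∀ (E : Type u) [Field E] [NumberField E] [Algebra K E], Module.finrank K E = j → ∀ y : E,
      IntermediateField.adjoin K {y} = ⊤ →
        |logHeight (mc K j y) - logHeight ![1, y]| ≤ C := by
  sorry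

/-- SR5 : reduction of the minimal polynomial -/
theorem local_norm {K : Type u} {E : Type u} [Field K] [NumberField K] [Field E] [NumberField E]
    [Algebra K E] {j : ℕ} (hE : Module.finrank K E = j) (v : HeightOneSpectrum (𝓞 K)) (y : E)
    (hy : IntermediateField.adjoin K {y} = ⊤) (l : Fin 2 → K)
    (h : ∀ w : HeightOneSpectrum (𝓞 E),
      w.asIdeal.comap (algebraMap (𝓞 K) (𝓞 E)) = v.asIdeal →
        1 ≤ fa w (algebraMap K E (l 0) + algebraMap K E (l 1) * y) ∧
        fa w y ≤ fa w (algebraMap K E (l 0) + algebraMap K E (l 1) * y))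
    (i : Fin (j + 1)) : fa v (mc K j y i) ≤ fa v (∑ i, vdm j l i * mc K j y i) := by
  sorry

/-- SR6 : general position -/
theorem linInd_vdm {K : Type*} [Field K] {q j : ℕ} (L : Fin q → Fin 2 → K)
    (hL : ∀ a b, a ≠ b → L a 0 * L b 1 - L a 1 * L b 0 ≠ 0) (J : Fin (j + 1) → Fin q)
    (hJ : Function.Injective J) : LinearIndependent K (fun i => vdm j (L (J i))) := by
  sorry

/-- SR7 : the truncated counting functions -/
theorem trunc_le {K : Type u} [Field K] [NumberField K] {q : ℕ}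
    (S : Set (HeightOneSpectrum (𝓞 K))) (L : Fin q → Fin 2 → K) (hL : ∀ l, L l ≠ 0) (j : ℕ) :
    ∃ C : ℝ, 0 ≤ C ∧ ∀ (E : Type u) [Field E] [NumberField E] [Algebra K E],
      Module.finrank K E = j → ∀ x : Fin 2 → E, x 0 ≠ 0 →
        IntermediateField.adjoin K {x 1 / x 0} = ⊤ → (∀ l, lin (up E L l) x ≠ 0) →
        Pool.Agent.Lib.MP_44a246_nt.HP.truncCount S (fun l => vdm j (L l))
          (mc K j (x 1 / x 0)) ≤ truncCount (above K E S) (up E L) x + C := by
  sorry

/-- SR8 : fibres of the map to the minimal polynomials -/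
theorem card_fibre {K : Type u} [Field K] {j : ℕ} (X : Finset (Σ F : IntermediateField K
      (AlgebraicClosure K), Projectivization F (Fin 2 → F)))
    (hX : ∀ s ∈ X, Prim s ∧ Module.finrank K s.1 = j) (g : Fin (j + 1) → K)
    (hg : ∀ s ∈ X, mc K j (s.2.rep 1 / s.2.rep 0) = g) : X.card ≤ j := by
  sorry

/-- SR9 : rational points of the line -/
theorem count_rational (K : Type*) [Field K] [NumberField K] (η : ℝ) (hη : 0 < η) :
    ∃ C : ℝ, ∀ B : ℝ, 1 ≤ B → ∀ X : Finset (Projectivization K (Fin 2 → K)),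
      (∀ P ∈ X, P.mulHeight ≤ B) → (X.card : ℝ) ≤ C * B ^ (2 + η) := by
  sorry

/-- SR10 : one degree -/
theorem sym_count_j {K : Type u} [Field K] [NumberField K] {q : ℕ}
    {S : Set (HeightOneSpectrum (𝓞 K))} (hS : S.Finite) (L : Fin q → Fin 2 → K)
    (hL0 : ∀ l, L l ≠ 0)
    (hL : ∀ a b, a ≠ b → L a 0 * L b 1 - L a 1 * L b 0 ≠ 0) (j : ℕ) (hj : 2 ≤ j)
    (ρ c η : ℝ) (hρ : 0 ≤ ρ) (hρq : ρ ≤ q - 1) (hη : 0 < η) :
    ∃ C : ℝ, ∀ B : ℝ, 1 ≤ B → ∀ X : Finset (Σ F : IntermediateField K (AlgebraicClosure K),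
        Projectivization F (Fin 2 → F)),
      (∀ s ∈ X, ∃ _ : NumberField s.1, Module.finrank K s.1 = j ∧ Prim s ∧
        (∀ l, lin (up s.1 L l) s.2.rep ≠ 0) ∧ s.2.mulHeight ≤ B ∧
        truncCount (above K s.1 S) (up s.1 L) s.2.rep ≤ ρ * s.2.logHeight + c) →
      (X.card : ℝ) ≤ C * B ^ ((j : ℝ) + η) := by
  sorry

/-- SR11 : points of degree at most `r` of the line -/
theorem sym_count {K : Type u} [Field K] [NumberField K] {q : ℕ}
    {S : Set (HeightOneSpectrum (𝓞 K))} (hS : S.Finite) (L : Fin q → Fin 2 → K)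
    (hL0 : ∀ l, L l ≠ 0)
    (hL : ∀ a b, a ≠ b → L a 0 * L b 1 - L a 1 * L b 0 ≠ 0) (r : ℕ) (hr : 2 ≤ r)
    (ρ c η : ℝ) (hρ : 0 ≤ ρ) (hρq : ρ ≤ q - 1) (hη : 0 < η) :
    ∃ C : ℝ, ∀ B : ℝ, 1 ≤ B → ∀ X : Finset (Σ F : IntermediateField K (AlgebraicClosure K),
        Projectivization F (Fin (1 + 1) → F)),
      (∀ s ∈ X, ∃ _ : NumberField s.1, Module.finrank K s.1 ≤ r ∧
        IntermediateField.adjoin K {z | ∃ i k, z = s.2.rep i / s.2.rep k} = ⊤ ∧
        (∀ l, lin (up s.1 L l) s.2.rep ≠ 0) ∧ s.2.mulHeight ≤ B ∧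
        truncCount (above K s.1 S) (up s.1 L) s.2.rep ≤ ρ * s.2.logHeight + c) →
      (X.card : ℝ) ≤ C * B ^ ((r : ℝ) + η) := by
  sorry

end Pool.Agent.Lib.MP_44a246_ntSR
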